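import Pool.Agent.Helper6.SQ.Event

set_option autoImplicit false

/-! # Project SQ6 (helper6), MP_e6aa12_ag: module Two

Exactness in every characteristic with two rows beyond the row `m`. -/

namespace Pool.Agent.Helper6.SQ

open Pool.Agent.Helper41.Fat Pool.Agent.Helper7.NM Pool.Agent.Helper42.Canon
open Pool.Agent.Helper42.Game

variable {K : Type*} [Field K]

/-- A unit move of a canonical state whose last row stays. -/
theorem TwoAux.nodS (x q t X : ℕ) (ht : q ≤ t) : nod 1 q (S x q t X) = S (x + 2) q (t - q) X := by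
  funext c
  rcases Nat.lt_or_ge q c with hc | hc
  · rw [nod_of_lt _ hc, S, if_neg (by omega)]
  · rw [nod, if_pos hc, one_mul]
    have h1 : ∑ c' ∈ Finset.Ioc c q, min (S x q t X c' - c) 1 = q - c := by
      calc ∑ c' ∈ Finset.Ioc c q, min (S x q t X c' - c) 1 = ∑ _c' ∈ Finset.Ioc c q, 1 := by
            refine Finset.sum_congr rfl fun c' hc' => ?_
            rw [Finset.mem_Ioc] at hc'
            rw [S, if_pos hc'.2]
            omega
        _ = q - c := by simp
    rw [h1, S, S, if_pos hc, if_pos hc]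
    have h2 : (x + 2) * (q - c) = x * (q - c) + 2 * (q - c) := by ring
    omega

theorem TwoAux.S_antitone (x q t X : ℕ) (hx : 1 ≤ x) : Antitone (S x q t X) := by
  intro i j hij
  rw [S, S]
  split_ifs with h1 h2 h3 h4
  all_goals first
    | omega
    | (have h6 : x * (q - j) ≤ x * (q - i) := Nat.mul_le_mul_left _ (by omega)
       omega)

theorem TwoAux.sumB (m t X : ℕ) (h : X + t ≤ m) :
    ∑ i ∈ Finset.range (m + 1), (if i < t ∨ m + 1 ≤ X + i then 1 else 0) = t + X := by
  rw [← Finset.card_filter]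
  have h1 : (Finset.range (m + 1)).filter (fun i => i < t ∨ m + 1 ≤ X + i)
      = Finset.range t ∪ Finset.Ico (m + 1 - X) (m + 1) := by
    ext i
    simp only [Finset.mem_filter, Finset.mem_range, Finset.mem_union, Finset.mem_Ico]
    omega
  rw [h1, Finset.card_union_of_disjoint, Finset.card_range, Nat.card_Ico]
  · omega
  · rw [Finset.disjoint_left]
    intro c hc hc2
    rw [Finset.mem_range] at hc
    rw [Finset.mem_Ico] at hc2
    omega

theorem TwoAux.sumC (m t X : ℕ) (h : m + 1 ≤ X + t) (ht : t ≤ m) (hX : X ≤ m + 1) :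
    ∑ i ∈ Finset.range (m + 1), (if m + 2 ≤ X + i ∧ i ≤ t then 1 else 0) = t + X - (m + 1) := by
  rw [← Finset.card_filter]
  have h1 : (Finset.range (m + 1)).filter (fun i => m + 2 ≤ X + i ∧ i ≤ t)
      = Finset.Ico (m + 2 - X) (t + 1) := by
    ext i
    simp only [Finset.mem_filter, Finset.mem_range, Finset.mem_Ico]
    omega
  rw [h1, Nat.card_Ico]
  omega

/-- A canonical state with one row beyond `m` is exact. -/
theorem canon_one [Infinite K] (m : ℕ) : ∀ (f x t X ρ : ℕ), 1 ≤ x → m ≤ x → X ≤ m + 1 →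
    ρ ≤ (x + 2 * f) * (m + 1).choose 2 →
    2 * ρ ≤ (m + 2) * (x * (m + 1) + 2 * t) + 2 * X →
    Good K (x + 2 * f) m (S x (m + 1) t X) ρ := by
  intro f
  induction f with
  | zero =>
    intro x t X ρ _ _ _ h1 _
    refine Good.le h1 (good_final_R fun c hc => ?_)
    rw [S, if_pos (by omega), mul_zero, add_zero]
    have : x * (m - c) ≤ x * (m + 1 - c) := Nat.mul_le_mul_left _ (by omega)
    omega
  | succ f ih =>
    intro x t X ρ hx hmx hX h1 h2
    have er : x + 2 * (f + 1) = (x + 2) + 2 * f := by ring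
    rw [er] at h1 ⊢
    have hch := two_mul_choose m
    rcases Nat.lt_or_ge t (m + 1) with ht | ht
    · -- the row `m + 1` disappears
      rcases Nat.lt_or_ge (X + t) (m + 1) with hXt | hXt
      · refine Pool.Agent.Helper7.Free.moveI
          (EventAux.growB x (m + 1) t X (by omega) (by omega)) ?_
        have hg := flat_good (K := K) (x + 2) f m (x + 1 + t - (m + 1)) ρ (by omega)
          (fun i => if i < t ∨ m + 1 ≤ X + i then 1 else 0)
          (fun c => by split_ifs <;> omega) h1 ?_
        · refine Good.mono (fun i => ?_) hg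
          split_ifs <;> first | omega | rfl
        · rw [sum_lin, TwoAux.sumB m t X (by omega)]
          obtain ⟨y, hy⟩ : ∃ y, x = m + y := ⟨x - m, by omega⟩
          have e1 : x + 1 + t - (m + 1) = y + t := by omega
          rw [e1]
          have e2 : 2 * ((x + 2) * (m + 1).choose 2) = (x + 2) * (m * (m + 1)) := by
            rw [← hch]; ring
          subst hy
          nlinarith
      · refine Pool.Agent.Helper7.Free.moveI
          (EventAux.growC x (m + 1) t X (by omega) ht hX hXt) ?_
        have hg := flat_good (K := K) (x + 2) f m (x + 2 + t - (m + 1)) ρ (by omega)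
          (fun i => if m + 2 ≤ X + i ∧ i ≤ t then 1 else 0)
          (fun c => by split_ifs <;> omega) h1 ?_
        · refine Good.mono (fun i => ?_) hg
          split_ifs <;> first | omega | rfl
        · rw [sum_lin, TwoAux.sumC m t X hXt (by omega) hX]
          obtain ⟨y, hy⟩ : ∃ y, x = m + y := ⟨x - m, by omega⟩
          obtain ⟨z, hz⟩ : ∃ z, t + X = m + 1 + z := ⟨t + X - (m + 1), by omega⟩
          have e1 : x + 2 + t - (m + 1) = y + 1 + t := by omega
          have e3 : t + X - (m + 1) = z := by omega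
          rw [e1, e3]
          have e2 : 2 * ((x + 2) * (m + 1).choose 2) = (x + 2) * (m * (m + 1)) := by
            rw [← hch]; ring
          subst hy
          nlinarith
    · -- the row `m + 1` stays
      refine nodal_move 1 (m + 1) (fun c c' h3 _ => TwoAux.S_antitone x (m + 1) t X hx h3) ?_
      rw [TwoAux.nodS x (m + 1) t X ht]
      refine ih (x + 2) (t - (m + 1)) X ρ (by omega) (by omega) hX h1 ?_
      obtain ⟨u, rfl⟩ : ∃ u, t = m + 1 + u := ⟨t - (m + 1), by omega⟩
      rw [Nat.add_sub_cancel_left]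
      nlinarith

/-- Rows `x (q - c) + b` for `c ≤ q` and a short row `q + 1` with `w` cells. -/
def PS (x q b w c : ℕ) : ℕ := if c ≤ q then x * (q - c) + b else if c = q + 1 then w else 0

theorem PS_antitone (x q b w : ℕ) (h : w ≤ b) : Antitone (PS x q b w) := by
  intro i j hij
  have h6 : x * (q - j) ≤ x * (q - i) := Nat.mul_le_mul_left _ (by omega)
  simp only [PS]
  split_ifs <;> omega

theorem TwoAux.nodP (x q b w : ℕ) (hw : q + 1 ≤ w) (hb : w ≤ b) :
    nod 1 (q + 1) (PS x q b w) = PS (x + 2) q (b + 1 - q) (w - (q + 1)) := by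
  funext c
  rcases Nat.lt_or_ge (q + 1) c with hc | hc
  · rw [nod_of_lt _ hc, PS, if_neg (by omega), if_neg (by omega)]
  · rw [nod, if_pos hc, one_mul]
    rcases Nat.eq_or_lt_of_le hc with hc2 | hc2
    · rw [hc2, Finset.Ioc_self, Finset.sum_empty, PS, PS, if_neg (by omega), if_pos rfl,
        if_neg (by omega), if_pos rfl]
      omega
    · have h1 : ∑ c' ∈ Finset.Ioc c (q + 1), min (PS x q b w c' - c) 1 = q + 1 - c := by
        calc ∑ c' ∈ Finset.Ioc c (q + 1), min (PS x q b w c' - c) 1
            = ∑ _c' ∈ Finset.Ioc c (q + 1), 1 := by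
              refine Finset.sum_congr rfl fun c' hc' => ?_
              rw [Finset.mem_Ioc] at hc'
              rw [PS]
              split_ifs <;> omega
          _ = q + 1 - c := by simp
      rw [h1, PS, PS, if_pos (by omega), if_pos (by omega)]
      have h2 : (x + 2) * (q - c) = x * (q - c) + 2 * (q - c) := by ring
      omega

theorem TwoAux.nodP' (x q b w : ℕ) (hw : w ≤ q) (hb : q ≤ b) :
    nod 1 (q + 1) (PS x q b w) = S (x + 2) q (b - q) w := by
  funext c
  rcases Nat.lt_or_ge (q + 1) c with hc | hc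
  · rw [nod_of_lt _ hc, S, if_neg (by omega)]
  · rw [nod, if_pos hc, one_mul]
    rcases Nat.eq_or_lt_of_le hc with hc2 | hc2
    · rw [hc2, Finset.Ioc_self, Finset.sum_empty, PS, S, if_neg (by omega), if_pos rfl,
        if_neg (by omega)]
      omega
    · have h1 : ∑ c' ∈ Finset.Ioc c q, min (PS x q b w c' - c) 1 = q - c := by
        calc ∑ c' ∈ Finset.Ioc c q, min (PS x q b w c' - c) 1
            = ∑ _c' ∈ Finset.Ioc c q, 1 := by
              refine Finset.sum_congr rfl fun c' hc' => ?_
              rw [Finset.mem_Ioc] at hc'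
              rw [PS, if_pos hc'.2]
              omega
          _ = q - c := by simp
      have h3 : min (PS x q b w (q + 1) - c) 1 = if c < w then 1 else 0 := by
        rw [PS, if_neg (by omega), if_pos rfl]
        split_ifs <;> omega
      have h4 : PS x q b w c = x * (q - c) + b := if_pos (by omega)
      have h5 : S (x + 2) q (b - q) w c = (x + 2) * (q - c) + (b - q) + (if c < w then 1 else 0) :=
        if_pos (by omega)
      rw [Finset.sum_Ioc_succ_top (by omega), h1, h3, h4, h5]
      have h2 : (x + 2) * (q - c) = x * (q - c) + 2 * (q - c) := by ring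
      omega

/-- A state with a full row `m + 1` and a short row `m + 2` is exact. -/
theorem canon_two [Infinite K] (m : ℕ) : ∀ (f x b w ρ : ℕ), 1 ≤ x → m ≤ x → w + (m + 1) ≤ b →
    ρ ≤ (x + 2 * f) * (m + 1).choose 2 →
    2 * ρ ≤ (m + 2) * (x * (m + 1) + 2 * b) + 2 * w →
    Good K (x + 2 * f) m (PS x (m + 1) b w) ρ := by
  intro f
  induction f with
  | zero =>
    intro x b w ρ _ _ _ h1 _
    refine Good.le h1 (good_final_R fun c hc => ?_)
    rw [PS, if_pos (by omega), mul_zero, add_zero]
    have : x * (m - c) ≤ x * (m + 1 - c) := Nat.mul_le_mul_left _ (by omega)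
    omega
  | succ f ih =>
    intro x b w ρ hx hmx hb h1 h2
    have er : x + 2 * (f + 1) = (x + 2) + 2 * f := by ring
    rw [er] at h1 ⊢
    refine nodal_move 1 (m + 1 + 1)
      (fun c c' h3 _ => PS_antitone x (m + 1) b w (by omega) h3) ?_
    rcases Nat.lt_or_ge w (m + 1 + 1) with hw | hw
    · rw [TwoAux.nodP' x (m + 1) b w (by omega) (by omega)]
      refine canon_one m f (x + 2) (b - (m + 1)) w ρ (by omega) (by omega) (by omega) h1 ?_
      obtain ⟨u, rfl⟩ : ∃ u, b = m + 1 + u := ⟨b - (m + 1), by omega⟩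
      rw [Nat.add_sub_cancel_left]
      nlinarith
    · rw [TwoAux.nodP x (m + 1) b w hw (by omega)]
      refine ih (x + 2) (b + 1 - (m + 1)) (w - (m + 1 + 1)) ρ (by omega) (by omega) (by omega) h1 ?_
      obtain ⟨u, rfl⟩ : ∃ u, b = m + u := ⟨b - m, by omega⟩
      obtain ⟨v, rfl⟩ : ∃ v, w = m + 2 + v := ⟨w - (m + 2), by omega⟩
      have e1 : m + u + 1 - (m + 1) = u := by omega
      have e2 : m + 2 + v - (m + 1 + 1) = v := by omega
      rw [e1, e2]
      nlinarith

/-- **Exactness**: `a (m + 2) ≤ d + 1 ≤ a (m + 3)`, `2 (m + 1) ≤ a (a + 1)`. -/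
theorem strip_exact2 [Infinite K] (a f m d : ℕ) (ha : 0 < a) (h1 : a * (m + 2) ≤ d + 1)
    (h2 : d + 1 ≤ a * (m + 3)) (h3 : 2 * (m + 1) ≤ a * (a + 1)) :
    Good K (a ^ 2 + 2 * f) m (fun b => d + 1 - b)
      (min ((d + 2).choose 2) ((a ^ 2 + 2 * f) * (m + 1).choose 2)) := by
  have e3 : a * (m + 3) = a * (m + 2) + a := by ring
  obtain ⟨y, hy⟩ : ∃ y, d + 1 = a * (m + 2) + y := ⟨d + 1 - a * (m + 2), by omega⟩
  have hya : y ≤ a := by omega
  have hlast := PAux.last a (m + 2) y d hy hya
  have hma : m ≤ a ^ 2 := by nlinarith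
  have ha2 : 1 ≤ a ^ 2 := Nat.one_le_pow _ _ ha
  set b := strip a d (m + 1) with hb
  set w := strip a d (m + 2) with hw
  have hfb := strip_full a d (m + 1) (by
    have : a * (m + 1 + 1) = a * (m + 2) := by ring
    omega)
  rw [← hb] at hfb
  have hy' : (d : ℤ) + 1 = a * (m + 2) + y := by exact_mod_cast hy
  have hfb' : 2 * (b : ℤ) = a * a + 2 * a * y + a := by
    rw [hfb, hy']
    push_cast
    ring
  have hw' : 2 * (w : ℤ) = y * (y + 1) := by exact_mod_cast hlast
  have hbw : w + (m + 1) ≤ b := by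
    have h4 : 2 * ((w : ℤ) + (m + 1)) ≤ 2 * b := by
      rw [hfb', mul_add, hw']
      have h5 : 2 * ((m : ℤ) + 1) ≤ a * (a + 1) := by exact_mod_cast h3
      have h6 : (y : ℤ) ≤ a := by exact_mod_cast hya
      have h7 : (0 : ℤ) ≤ y := by positivity
      have h8 : (1 : ℤ) ≤ a := by exact_mod_cast ha
      nlinarith [mul_nonneg h7 (show (0 : ℤ) ≤ 2 * a - y - 1 by linarith)]
    omega
  have hstrip : strip a d = PS (a ^ 2) (m + 1) b w := by
    funext c
    rw [PS]
    split_ifs with h4 h5
    · have h6 := strip_full a d c (by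
        have h7 : a * (c + 1) ≤ a * (m + 2) := Nat.mul_le_mul_left _ (by omega)
        omega)
      have h8 : ((m + 1 - c : ℕ) : ℤ) = (m : ℤ) + 1 - c := by omega
      have h9 : (strip a d c : ℤ) = (a : ℤ) ^ 2 * ((m + 1 - c : ℕ) : ℤ) + b := by
        rw [h8]
        have h10 : 2 * (strip a d c : ℤ) = 2 * ((a : ℤ) ^ 2 * ((m : ℤ) + 1 - c) + b) := by
          rw [h6, mul_add, hfb]
          push_cast
          ring
        linarith
      exact_mod_cast h9
    · rw [h5]
    · refine strip_zero a d c ?_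
      have h6 : a * (m + 3) ≤ a * c := Nat.mul_le_mul_left _ (by omega)
      rw [mul_comm c a]
      omega
  refine start a d ha ?_
  rw [hstrip]
  refine canon_two m f (a ^ 2) b w _ ha2 hma hbw (min_le_right _ _) ?_
  have h8 : 2 * (d + 2).choose 2 = (d + 1) * (d + 2) := two_mul_choose (d + 1)
  have h9 : 2 * min ((d + 2).choose 2) ((a ^ 2 + 2 * f) * (m + 1).choose 2)
      ≤ (d + 1) * (d + 2) := by
    rw [← h8]
    exact Nat.mul_le_mul_left _ (min_le_left _ _)
  refine h9.trans ?_
  have h10 : ((d : ℤ) + 1) * (d + 2) ≤ (m + 2) * ((a : ℤ) ^ 2 * (m + 1) + 2 * b) + 2 * w := by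
    rw [hfb', hw']
    have h11 : (d : ℤ) + 2 = a * (m + 2) + y + 1 := by linarith
    rw [hy', h11]
    nlinarith
  exact_mod_cast h10

end Pool.Agent.Helper6.SQ
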