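import Pool.Agent.Helper6.SQ.Base

set_option autoImplicit false

/-! # Project SQ6 (helper6), MP_e6aa12_ag: module P

Strips of width `L` and then one nodal move of degree `L` (slope `L ^ 2` to `(L + 1) ^ 2`).
`(L + 1) (2 m + 1) = 2 d + 4 + w`. -/

namespace Pool.Agent.Helper6.SQ

open Pool.Agent.Helper41.Fat Pool.Agent.Helper7.NM

variable {K : Type*} [Field K]

theorem PAux.last (p Q τ d : ℕ) (hd : d + 1 = p * Q + τ) (hτ : τ ≤ p) :
    2 * strip p d Q = τ * (τ + 1) := by
  have h1 : strip p d Q = ∑ s ∈ Finset.range τ, (τ - s) := by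
    rw [strip, hd]
    have hsub : Finset.range τ ⊆ Finset.range p := Finset.range_subset_range.2 hτ
    rw [← Finset.sum_subset hsub]
    · refine Finset.sum_congr rfl fun s _ => ?_
      rw [mul_comm Q p]
      omega
    · intro s _ hs
      rw [Finset.mem_range] at hs
      rw [mul_comm Q p]
      omega
  rw [h1, sum_stair]
  exact two_mul_choose τ

/-- The rows after the strips of width `L` and one nodal move of degree `L`. -/
theorem strip_P (L M m d g w : ℕ) (hL : 1 ≤ L) (hg1 : 1 ≤ g) (hgL : g ≤ L)
    (hM : d + 1 = L * M + g) (h0 : (L + 1) * m ≤ d)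
    (hv : (L + 1) * (2 * m + 1) = 2 * d + 4 + w)
    (hB : ∀ i, 2 * (L * i) < g * (g + 1) →
      g * (g + 1) + 2 * i ≤ 2 * (L * i) + 2 * g + (L + 1) + (L + 1) * w ∨
        2 * L + 2 * i ≤ 2 * g + (L + 1) + (L + 1) * w)
    (hP : L * (m + 1) ≤ d + 1 ∨ g * (g + 1) ≤ 2 * (L * m)) :
    (∀ i < m, nod L d (strip L d) i ≤ (L + 1) ^ 2 * (m - i)) ∧
      ∀ i, m ≤ i → nod L d (strip L d) i = 0 := by
  have hLm : (L + 1) * m = L * m + m := by ring
  have hmM : m ≤ M := by
    by_contra hcon
    have h1 : L * (M + 1) ≤ L * m := Nat.mul_le_mul_left _ (by omega)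
    have h2 : L * (M + 1) = L * M + L := by ring
    omega
  have hMd : M ≤ d := by
    have h1 : M ≤ L * M := Nat.le_mul_of_pos_left _ hL
    omega
  have hfull : ∀ c < M, 2 * (strip L d c : ℤ) = 2 * (L : ℤ) * (d + 1 - L * c) - L * (L - 1) := by
    intro c hc
    refine strip_full L d c ?_
    have h1 : L * (c + 1) ≤ L * M := Nat.mul_le_mul_left _ hc
    omega
  have hlast : 2 * strip L d M = g * (g + 1) := PAux.last L M g d hM hgL
  have hzero : ∀ c, M < c → strip L d c = 0 := by
    intro c hc
    refine strip_zero L d c ?_
    have h1 : L * (M + 1) ≤ L * c := Nat.mul_le_mul_left _ hc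
    have h2 : L * (M + 1) = L * M + L := by ring
    rw [mul_comm c L]
    omega
  constructor
  · intro i hi
    by_cases hni : strip L d i ≤ L * i
    · rw [unit_nod_zero (strip_antitone L d) hni]
      exact Nat.zero_le _
    rw [not_le] at hni
    have hiM : i < M := lt_of_lt_of_le hi hmM
    -- `x = 2 X`
    obtain ⟨x, hx⟩ : ∃ x : ℤ, x = 2 * ((d : ℤ) + 1) - 2 * (L + 1) * i - (L - 1) := ⟨_, rfl⟩
    have hx1 : 2 * ((strip L d i : ℤ) - L * i) = L * x := by
      have := hfull i hiM
      rw [hx]
      linear_combination this
    have hx2 : x = 2 * ((L : ℤ) + 1) * (m - i) - w := by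
      have hv' : ((L : ℤ) + 1) * (2 * m + 1) = 2 * d + 4 + w := by exact_mod_cast hv
      rw [hx]
      linear_combination (-1 : ℤ) * hv'
    have hLpos : (0 : ℤ) < L := by exact_mod_cast hL
    have hxpos : 0 < x := by
      have h1 : (0 : ℤ) < 2 * ((strip L d i : ℤ) - L * i) := by
        have : ((L * i : ℕ) : ℤ) < strip L d i := by exact_mod_cast hni
        push_cast at this
        linarith
      rw [hx1] at h1
      exact (mul_pos_iff_of_pos_left hLpos).1 h1
    have hsplit : nod L d (strip L d) i = (strip L d i - L * i)
        + (∑ c ∈ Finset.Ioo i M, min (strip L d c - L * i) L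
          + min (strip L d M - L * i) L) := by
      rw [nod, if_pos (by omega)]
      congr 1
      have h1 : Finset.Ioc i d = Finset.Ioc M d ∪ insert M (Finset.Ioo i M) := by
        ext c
        simp only [Finset.mem_Ioc, Finset.mem_union, Finset.mem_insert, Finset.mem_Ioo]
        omega
      have h2 : Disjoint (Finset.Ioc M d) (insert M (Finset.Ioo i M)) := by
        rw [Finset.disjoint_left]
        intro c hc
        simp only [Finset.mem_Ioc, Finset.mem_insert, Finset.mem_Ioo] at hc ⊢
        omega
      rw [h1, Finset.sum_union h2, Finset.sum_insert (by simp)]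
      have h3 : ∑ c ∈ Finset.Ioc M d, min (strip L d c - L * i) L = 0 := by
        refine Finset.sum_eq_zero fun c hc => ?_
        rw [Finset.mem_Ioc] at hc
        rw [hzero c hc.1]
        simp
      rw [h3]
      ring
    have hi1 : ((m - i : ℕ) : ℤ) = (m : ℤ) - i := by omega
    have hni' : ((strip L d i - L * i : ℕ) : ℤ) = (strip L d i : ℤ) - L * i := by
      rw [Nat.cast_sub hni.le]
      push_cast
      ring
    have hgoal : 2 * (nod L d (strip L d) i : ℤ) ≤ (L + 1) * x + (L + 1) * w →
        nod L d (strip L d) i ≤ (L + 1) ^ 2 * (m - i) := by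
      intro h1
      have h2 : (nod L d (strip L d) i : ℤ) ≤ ((L : ℤ) + 1) ^ 2 * ((m - i : ℕ) : ℤ) := by
        rw [hi1]
        rw [hx2] at h1
        have h3 : ((L : ℤ) + 1) * (2 * (L + 1) * (m - i) - w) + (L + 1) * w
            = 2 * (((L : ℤ) + 1) ^ 2 * (m - i)) := by ring
        linarith
      exact_mod_cast h2
    apply hgoal
    have hwpos : (0 : ℤ) ≤ (L + 1) * w := by positivity
    by_cases hB' : L * i < strip L d M
    · -- the last row contributes
      have h1 : ∑ c ∈ Finset.Ioo i M, min (strip L d c - L * i) L ≤ (M - 1 - i) * L := by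
        calc ∑ c ∈ Finset.Ioo i M, min (strip L d c - L * i) L
            ≤ ∑ _c ∈ Finset.Ioo i M, L := Finset.sum_le_sum fun c _ => min_le_right _ _
          _ = (M - 1 - i) * L := by
            rw [Finset.sum_const, smul_eq_mul, Nat.card_Ioo]
            congr 1
            omega
      have h2 : (((M - 1 - i) * L : ℕ) : ℤ) = ((M : ℤ) - 1 - i) * L := by
        have : ((M - 1 - i : ℕ) : ℤ) = (M : ℤ) - 1 - i := by omega
        rw [Nat.cast_mul, this]
      have h3 : x - 2 * (((M : ℤ) - 1 - i) * L) = 2 * g - 2 * i + L + 1 := by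
        have hM' : (d : ℤ) + 1 = L * M + g := by exact_mod_cast hM
        rw [hx]
        linear_combination 2 * hM'
      have h4 : 2 * (nod L d (strip L d) i : ℤ) ≤ L * x + 2 * (((M : ℤ) - 1 - i) * L)
          + 2 * ((min (strip L d M - L * i) L : ℕ) : ℤ) := by
        rw [hsplit]
        have h5 : ((∑ c ∈ Finset.Ioo i M, min (strip L d c - L * i) L : ℕ) : ℤ)
            ≤ (((M - 1 - i) * L : ℕ) : ℤ) := by exact_mod_cast h1
        rw [Nat.cast_add, Nat.cast_add, hni']
        rw [h2] at h5
        linarith
      have h6 : 2 * ((min (strip L d M - L * i) L : ℕ) : ℤ)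
          ≤ 2 * g - 2 * i + L + 1 + (L + 1) * w := by
        have h7 : 2 * (L * i) < g * (g + 1) := by omega
        rcases hB i h7 with h8 | h8
        · have h9 : 2 * min (strip L d M - L * i) L ≤ 2 * strip L d M - 2 * (L * i) := by omega
          have h10 : 2 * min (strip L d M - L * i) L + 2 * (L * i) ≤ g * (g + 1) := by omega
          have h11 : 2 * ((min (strip L d M - L * i) L : ℕ) : ℤ) + 2 * (L * i) ≤ g * (g + 1) := by
            exact_mod_cast h10
          have h12 : (g : ℤ) * (g + 1) + 2 * i ≤ 2 * (L * i) + 2 * g + (L + 1) + (L + 1) * w := by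
            exact_mod_cast h8
          linarith
        · have h9 : 2 * min (strip L d M - L * i) L ≤ 2 * L := by omega
          have h11 : 2 * ((min (strip L d M - L * i) L : ℕ) : ℤ) ≤ 2 * L := by
            exact_mod_cast h9
          have h12 : 2 * (L : ℤ) + 2 * i ≤ 2 * g + (L + 1) + (L + 1) * w := by
            exact_mod_cast h8
          linarith
      linarith
    · -- the last row does not contribute
      have h1 : min (strip L d M - L * i) L = 0 := by omega
      obtain ⟨y, hy⟩ : ∃ y : ℕ, (y : ℤ) = x - 1 := ⟨(x - 1).toNat, by omega⟩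
      have h2 : ∑ c ∈ Finset.Ioo i M, min (strip L d c - L * i) L ≤ (y / (2 * L)) * L := by
        have h3 : ∑ c ∈ Finset.Ioo i M, min (strip L d c - L * i) L
            ≤ ∑ c ∈ Finset.Ioc i (i + y / (2 * L)), L := by
          calc ∑ c ∈ Finset.Ioo i M, min (strip L d c - L * i) L
              ≤ ∑ c ∈ Finset.Ioo i M, (if c ≤ i + y / (2 * L) then L else 0) := by
                refine Finset.sum_le_sum fun c hc => ?_
                rw [Finset.mem_Ioo] at hc
                split_ifs with h4
                · exact min_le_right _ _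
                · have h5 : strip L d c ≤ L * i := by
                    by_contra hcon
                    rw [not_le] at hcon
                    apply h4
                    have h6 := hfull c hc.2
                    have h7 : 2 * ((strip L d c : ℤ) - L * i) = L * (x - 2 * (L * (c - i))) := by
                      rw [hx]
                      linear_combination h6
                    have h8 : (0 : ℤ) < 2 * ((strip L d c : ℤ) - L * i) := by
                      have : ((L * i : ℕ) : ℤ) < strip L d c := by exact_mod_cast hcon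
                      push_cast at this
                      linarith
                    rw [h7] at h8
                    have h9 := (mul_pos_iff_of_pos_left hLpos).1 h8
                    have h10 : 2 * L * (c - i) ≤ y := by
                      have h11 : ((c - i : ℕ) : ℤ) = (c : ℤ) - i := by omega
                      have h12 : (2 : ℤ) * L * ((c - i : ℕ) : ℤ) ≤ y := by
                        rw [h11, hy]
                        linarith
                      exact_mod_cast h12
                    have h13 : c - i ≤ y / (2 * L) := by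
                      rw [Nat.le_div_iff_mul_le (by omega), mul_comm]
                      exact h10
                    omega
                  rw [Nat.sub_eq_zero_of_le h5]
                  simp
            _ = ∑ c ∈ (Finset.Ioo i M).filter (fun c => c ≤ i + y / (2 * L)), L := by
                rw [Finset.sum_filter]
            _ ≤ ∑ c ∈ Finset.Ioc i (i + y / (2 * L)), L := by
                refine Finset.sum_le_sum_of_subset fun c hc => ?_
                rw [Finset.mem_filter, Finset.mem_Ioo] at hc
                rw [Finset.mem_Ioc]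
                exact ⟨hc.1.1, hc.2⟩
        rw [Finset.sum_const, smul_eq_mul, Nat.card_Ioc, Nat.add_sub_cancel_left] at h3
        exact h3
      have h4 : 2 * ((y / (2 * L)) * L) ≤ y := by
        calc 2 * ((y / (2 * L)) * L) = (y / (2 * L)) * (2 * L) := by ring
          _ ≤ y := Nat.div_mul_le_self _ _
      have h5 : 2 * ∑ c ∈ Finset.Ioo i M, min (strip L d c - L * i) L ≤ y := by omega
      have h6 : 2 * ((∑ c ∈ Finset.Ioo i M, min (strip L d c - L * i) L : ℕ) : ℤ) ≤ y := by
        exact_mod_cast h5
      rw [hsplit, h1, add_zero, Nat.cast_add, hni']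
      linarith
  · intro i hi
    refine unit_nod_zero (strip_antitone L d) ?_
    have h1 : strip L d i ≤ strip L d m := strip_antitone L d hi
    have h2 : L * m ≤ L * i := Nat.mul_le_mul_left _ hi
    refine h1.trans (le_trans ?_ h2)
    rcases hP with hP | hP
    · have h3 := strip_full L d m hP
      have hv' : ((L : ℤ) + 1) * (2 * m + 1) = 2 * d + 4 + w := by exact_mod_cast hv
      have h4 : 2 * ((strip L d m : ℤ) - L * m) = L * (-w) := by
        linear_combination h3 - L * hv'
      have h5 : (0 : ℤ) ≤ L * w := by positivity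
      have h6 : (strip L d m : ℤ) ≤ L * m := by linarith
      exact_mod_cast h6
    · rcases Nat.lt_or_ge m M with h | h
      · have h3 := strip_full L d m (by
          have : L * (m + 1) ≤ L * M := Nat.mul_le_mul_left _ h
          omega)
        have hv' : ((L : ℤ) + 1) * (2 * m + 1) = 2 * d + 4 + w := by exact_mod_cast hv
        have h4 : 2 * ((strip L d m : ℤ) - L * m) = L * (-w) := by
          linear_combination h3 - L * hv'
        have h5 : (0 : ℤ) ≤ L * w := by positivity
        have h6 : (strip L d m : ℤ) ≤ L * m := by linarith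
        exact_mod_cast h6
      · have h3 : m = M := by omega
        rw [h3] at hP ⊢
        omega

/-- **Emptiness** from one nodal move of degree `L` on the strips of width `L`. -/
theorem good_P [Infinite K] (L M m d g w : ℕ) (hL : 1 ≤ L) (hg1 : 1 ≤ g) (hgL : g ≤ L)
    (hM : d + 1 = L * M + g) (h0 : (L + 1) * m ≤ d)
    (hv : (L + 1) * (2 * m + 1) = 2 * d + 4 + w)
    (hB : ∀ i, 2 * (L * i) < g * (g + 1) →
      g * (g + 1) + 2 * i ≤ 2 * (L * i) + 2 * g + (L + 1) + (L + 1) * w ∨
        2 * L + 2 * i ≤ 2 * g + (L + 1) + (L + 1) * w)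
    (hP : L * (m + 1) ≤ d + 1 ∨ g * (g + 1) ≤ 2 * (L * m)) :
    Good K ((L + 1) ^ 2) m (fun b => d + 1 - b) ((d + 2).choose 2) := by
  have key := strip_P L M m d g w hL hg1 hgL hM h0 hv hB hP
  refine start L d hL (nodal_move L d (fun c c' h1 _ => strip_antitone L d h1) ?_)
  have hfin := good_final_E (K := K) (r := (L + 1) ^ 2) (m := m) (Q := d)
    (n := nod L d (strip L d)) (fun c hc => nod_of_lt _ hc) key.1 key.2
  rwa [nod_sum, strip_sum L d hL] at hfin

end Pool.Agent.Helper6.SQ
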