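import Pool.Agent.Helper6.SQ.StripE
import Pool.Agent.Helper6.SQ.P

set_option autoImplicit false

/-! # Project SQ6 (helper6), MP_e6aa12_ag: squares in every characteristic -/

namespace Pool.Agent.Helper6.SQ

open Pool.Agent.Helper41.Fat Pool.Agent.Helper7.NM

variable {K : Type*} [Field K]

/-- The corner condition for `w = 0`, `s = L + 1 ≤ 12`. -/
theorem corner : ∀ L < 12, ∀ g < 12, ∀ i < 12, ¬ (L % 2 = 1 ∧ g ≤ L ∧ 2 * (L * i) < g * (g + 1)) ∨
    g * (g + 1) + 2 * i ≤ 2 * (L * i) + 2 * g + (L + 1) ∨ 2 * L + 2 * i ≤ 2 * g + (L + 1) := by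
  decide

theorem i_le {L g i : ℕ} (hgL : g ≤ L) (h : 2 * (L * i) < g * (g + 1)) : 2 * i ≤ g := by
  by_contra hcon
  rw [not_le] at hcon
  have h1 : L * (g + 1) ≤ L * (2 * i) := Nat.mul_le_mul_left _ hcon
  have h2 : L * (2 * i) = 2 * (L * i) := by ring
  have h3 : g * (g + 1) ≤ L * (g + 1) := Nat.mul_le_mul_right _ hgL
  omega

/-- The corner condition. -/
theorem corner_all {L g w : ℕ} (hgL : g ≤ L) (hw : 1 ≤ w ∨ (L < 12 ∧ L % 2 = 1)) :
    ∀ i, 2 * (L * i) < g * (g + 1) →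
      g * (g + 1) + 2 * i ≤ 2 * (L * i) + 2 * g + (L + 1) + (L + 1) * w ∨
        2 * L + 2 * i ≤ 2 * g + (L + 1) + (L + 1) * w := by
  intro i hi
  have h1 := i_le hgL hi
  rcases hw with hw | ⟨hL, hodd⟩
  · right
    have h2 : (L + 1) * 1 ≤ (L + 1) * w := Nat.mul_le_mul_left _ hw
    omega
  · rcases corner L hL g (by omega) i (by omega) with h | h | h
    · exact absurd ⟨hodd, hgL, hi⟩ h
    · left
      have : 0 ≤ (L + 1) * w := Nat.zero_le _
      omega
    · right
      have : 0 ≤ (L + 1) * w := Nat.zero_le _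
      omega

/-- Degrees below `s m`. -/
theorem sq_below [Infinite K] (s m d : ℕ) (hs : 0 < s) (h : d < m * s) :
    Good K (s ^ 2) m (fun b => d + 1 - b) ((d + 2).choose 2) := by
  refine start s d hs ?_
  have hfin := good_final_E (K := K) (r := s ^ 2) (m := m) (Q := d) (n := strip s d)
    (strip_far s d hs) (fun c hc => strip_le s d m c hc.le h) (fun c hc => strip_zero s d c ?_)
  · rwa [strip_sum s d hs] at hfin
  · have : m * s ≤ c * s := Nat.mul_le_mul_right _ hc
    omega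

/-- Degrees above. -/
theorem sq_above [Infinite K] (s m d : ℕ) (hs : 0 < s) (h : s * (2 * m + 1) ≤ 2 * d + 3) :
    Good K (s ^ 2) m (fun b => d + 1 - b) (s ^ 2 * (m + 1).choose 2) := by
  refine start s d hs (good_final_R fun c hc => ?_)
  have h1 := strip_lower s d c hs
  have h2 : (s : ℤ) * (2 * m + 1) ≤ 2 * d + 3 := by exact_mod_cast h
  have h3 : ((m - c : ℕ) : ℤ) = (m : ℤ) - c := by omega
  have h4 : (s : ℤ) ^ 2 * ((m - c : ℕ) : ℤ) ≤ strip s d c := by
    rw [h3]
    have h5 : (s : ℤ) * (s * (2 * m + 1)) ≤ s * (2 * d + 3) :=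
      mul_le_mul_of_nonneg_left h2 (Int.natCast_nonneg _)
    have h6 : 2 * (s : ℤ) * (d + 1 - s * c) - s * (s - 1)
        = s * (2 * d + 3) - s * s - 2 * (s * s * c) := by ring
    have h7 : 2 * ((s : ℤ) ^ 2 * (m - c)) = s * (s * (2 * m + 1)) - s * s - 2 * (s * s * c) := by
      ring
    linarith
  exact_mod_cast h4

/-- The exact lemma for squares. -/
theorem sq_exact [Infinite K] (s m D k : ℕ) (h1 : s ≤ D + 1 + 2 * k * (m + 1))
    (h2 : 2 * k * (m + 2) + D < 2 * s) :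
    Good K (s ^ 2) m (fun b => s * m + D + 1 - b)
      (min ((s * m + D + 2).choose 2) (s ^ 2 * (m + 1).choose 2)) := by
  have hk : 2 * k * 2 ≤ 2 * k * (m + 2) := Nat.mul_le_mul_left _ (by omega)
  obtain ⟨a, ha⟩ : ∃ a, s = a + 2 * k := ⟨s - 2 * k, by omega⟩
  have ha0 : 0 < a := by omega
  have hr : a ^ 2 + 2 * (2 * k * (a + k)) = s ^ 2 := by rw [ha]; ring
  have e1 : s * m + D = a * m + 2 * k * m + D := by rw [ha]; ring
  have e2 : a * (m + 1) = a * m + a := by ring
  have e3 : a * (m + 2) = a * m + 2 * a := by ring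
  have e4 : 2 * k * (m + 1) = 2 * k * m + 2 * k := by ring
  have e5 : 2 * k * (m + 2) = 2 * k * m + 4 * k := by ring
  have h := strip_exact (K := K) a (2 * k * (a + k)) m (s * m + D) ha0 (by omega) (by omega)
  rwa [hr] at h

/-- Small `m`. -/
theorem sq_small [Infinite K] (s m D : ℕ) (hD : 2 * D + 4 ≤ s) (hm1 : 1 ≤ m) (hm : m ≤ D) :
    Good K (s ^ 2) m (fun b => s * m + D + 1 - b)
      (min ((s * m + D + 2).choose 2) (s ^ 2 * (m + 1).choose 2)) := by
  set q := (s - D - 2) / (2 * (m + 1)) with hq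
  have h1 : 2 * (m + 1) * q ≤ s - D - 2 := Nat.mul_div_le _ _
  have h2 : s - D - 2 < 2 * (m + 1) * (q + 1) := Nat.lt_mul_div_succ _ (by omega)
  refine sq_exact s m D (q + 1) ?_ ?_
  · have : 2 * (q + 1) * (m + 1) = 2 * (m + 1) * (q + 1) := by ring
    omega
  · by_contra hcon
    rw [not_lt] at hcon
    have h3 : 2 * ((q : ℤ) + 1) * (m + 1) ≤ s - D + 2 * m := by
      have h4 : 2 * (m + 1) * (q + 1) = 2 * (m + 1) * q + 2 * (m + 1) := by ring
      have h5 : 2 * (m + 1) * (q + 1) + D ≤ s + 2 * m := by omega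
      have h6 : 2 * ((m : ℤ) + 1) * (q + 1) + D ≤ s + 2 * m := by exact_mod_cast h5
      linarith
    have h7 : 2 * (s : ℤ) ≤ 2 * (q + 1) * (m + 2) + D := by exact_mod_cast hcon
    have h8 : 2 * (s : ℤ) * (m + 1) ≤ (2 * (q + 1) * (m + 2) + D) * (m + 1) :=
      mul_le_mul_of_nonneg_right h7 (by positivity)
    have h9 : 2 * ((q : ℤ) + 1) * (m + 1) * (m + 2) ≤ (s - D + 2 * m) * (m + 2) :=
      mul_le_mul_of_nonneg_right h3 (by positivity)
    -- `s m + D ≤ 2 m ^ 2 + 4 m`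
    have h10 : (s : ℤ) * m + D ≤ 2 * m ^ 2 + 4 * m := by linarith
    have h11 : (2 * (m : ℤ) + 4) * m ≤ s * m :=
      mul_le_mul_of_nonneg_right (by omega) (by positivity)
    have h12 : (1 : ℤ) ≤ D := by omega
    linarith

/-- Large `m`: the nodal move of degree `s - 1`. -/
theorem sq_large [Infinite K] (L m D w : ℕ) (hs : L + 1 = 2 * D + 4 + w) (hm : D + 1 ≤ m)
    (hw : 1 ≤ w ∨ (L < 12 ∧ L % 2 = 1)) :
    Good K ((L + 1) ^ 2) m (fun b => (L + 1) * m + D + 1 - b)
      (((L + 1) * m + D + 2).choose 2) := by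
  have hv : (L + 1) * (2 * m + 1) = 2 * ((L + 1) * m + D) + 4 + w := by
    have : (L + 1) * (2 * m + 1) = 2 * ((L + 1) * m) + (L + 1) := by ring
    omega
  have e1 : (L + 1) * m = L * m + m := by ring
  rcases Nat.lt_or_ge (m + D + 1) (L + 1) with h | h
  · -- the last row is the row `m`
    refine good_P L m m ((L + 1) * m + D) (m + D + 1) w (by omega) (by omega) (by omega)
      (by omega) (by omega) hv (corner_all (by omega) hw) (Or.inr ?_)
    obtain ⟨j, hj⟩ : ∃ j, m = D + 1 + j := ⟨m - D - 1, by omega⟩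
    have h1 : j ≤ w + 1 := by omega
    have hL : L = 2 * D + 3 + w := by omega
    subst hj
    rw [hL]
    have h2 : j * j ≤ j * (w + 1) := Nat.mul_le_mul_left _ h1
    nlinarith
  · have h1 : L * (((L + 1) * m + D) / L) + ((L + 1) * m + D) % L = (L + 1) * m + D :=
      Nat.div_add_mod _ _
    have h2 : ((L + 1) * m + D) % L < L := Nat.mod_lt _ (by omega)
    refine good_P L (((L + 1) * m + D) / L) m ((L + 1) * m + D) (((L + 1) * m + D) % L + 1) w
      (by omega) (by omega) (by omega) (by omega) (by omega) hv (corner_all (by omega) hw)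
      (Or.inl ?_)
    have : L * (m + 1) = L * m + L := by ring
    omega

/-- The tight case `s = 2 t`, `D = t - 2`, by a strip of width `s - 2` and unit moves. -/
theorem sq_tight [Infinite K] (t m : ℕ) (ht : 2 ≤ t) (h1 : t ≤ 2 * m) (h2 : m ≤ t * (t - 1)) :
    Good K ((2 * t) ^ 2) m (fun b => 2 * t * m + (t - 2) + 1 - b)
      ((2 * t * m + (t - 2) + 2).choose 2) := by
  obtain ⟨u, rfl⟩ : ∃ u, t = u + 2 := ⟨t - 2, by omega⟩
  have e0 : u + 2 - 1 = u + 1 := by omega
  rw [e0] at h2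
  rw [Nat.add_sub_cancel]
  have hr : (2 * (u + 1)) ^ 2 + 2 * (2 * (2 * u + 3)) = (2 * (u + 2)) ^ 2 := by ring
  have e1 : 2 * (u + 2) * m = 2 * (u + 1) * m + 2 * m := by ring
  have e2 : 2 * (u + 1) * (m + 1) = 2 * (u + 1) * m + 2 * (u + 1) := by ring
  set e := (2 * m + u) / (2 * (u + 1)) with he
  have h3 : 2 * (u + 1) * e ≤ 2 * m + u := Nat.mul_div_le _ _
  have h4 : 2 * m + u < 2 * (u + 1) * (e + 1) := Nat.lt_mul_div_succ _ (by omega)
  rw [← hr]
  refine strip_E (2 * (u + 1)) (2 * (2 * u + 3)) m (2 * (u + 2) * m + u) e (by omega) (by omega)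
    ?_ ?_
  · have e3 : 2 * (u + 1) * (m + e + 1) = 2 * (u + 1) * m + 2 * (u + 1) * (e + 1) := by ring
    omega
  · have h5 : 2 * ((u : ℤ) + 1) * e ≤ 2 * m + u := by exact_mod_cast h3
    have h6 : 2 * ((u : ℤ) + 1) * e * m ≤ (2 * m + u) * m :=
      mul_le_mul_of_nonneg_right h5 (Int.natCast_nonneg _)
    have h7 : (0 : ℤ) ≤ 2 * m - (u + 2) := by omega
    have h8 : (0 : ℤ) ≤ (u + 2) * (u + 1) - m := by
      have : (m : ℤ) ≤ (u + 2) * (u + 1) := by exact_mod_cast h2
      linarith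
    have h9 := mul_nonneg h7 h8
    have h10 : ((u : ℤ) + 1) * (2 * (e - 1) * m)
        ≤ (u + 1) * (2 * (u + 2) * m - (u + 2) * (u + 1)) := by nlinarith
    have h11 : 2 * ((e : ℤ) - 1) * m ≤ 2 * (u + 2) * m - (u + 2) * (u + 1) :=
      le_of_mul_le_mul_left h10 (by positivity)
    have h12 : (2 * ((u : ℤ) + 2) * m + u + 1) * (2 * (u + 2) * m + u + 2) + 2 * (e * m)
        ≤ ((2 * (u + 1)) ^ 2 + 2 * (2 * (2 * u + 3))) * (m * (m + 1)) + 2 * m := by nlinarith
    exact_mod_cast h12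

/-- **Squares in every characteristic.** -/
theorem good_sq [Infinite K] (s m d : ℕ) (hs : 1 ≤ s)
    (hyp : s * (2 * m + 1) ≠ 2 * d + 4 ∨ s ≤ 12 ∨ 4 * m ≤ s * (s - 2)) :
    Good K (s ^ 2) m (fun b => d + 1 - b)
      (min ((d + 2).choose 2) (s ^ 2 * (m + 1).choose 2)) := by
  rcases Nat.eq_zero_or_pos m with hm0 | hm0
  · subst hm0
    refine Good.le ?_ (Good.final (K := K) (s ^ 2) 0 (fun b => d + 1 - b))
    simp
  rcases Nat.lt_or_ge d (m * s) with h1 | h1
  · exact Good.le (min_le_left _ _) (sq_below s m d hs h1)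
  rcases Nat.lt_or_ge (2 * d + 3) (s * (2 * m + 1)) with h2 | h2
  swap
  · exact Good.le (min_le_right _ _) (sq_above s m d hs h2)
  have e0 : m * s = s * m := mul_comm _ _
  obtain ⟨D, hD⟩ : ∃ D, d = s * m + D := ⟨d - s * m, by omega⟩
  have e1 : s * (2 * m + 1) = 2 * (s * m) + s := by ring
  obtain ⟨w, hw⟩ : ∃ w, s = 2 * D + 4 + w := ⟨s - 2 * D - 4, by omega⟩
  subst hD
  rcases Nat.lt_or_ge D m with hDm | hDm
  swap
  · exact sq_small s m D (by omega) hm0 hDm
  by_cases hw0 : 1 ≤ w ∨ s ≤ 12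
  · obtain ⟨L, hL⟩ : ∃ L, s = L + 1 := ⟨s - 1, by omega⟩
    subst hL
    refine Good.le (min_le_left _ _) (sq_large L m D w hw (by omega) ?_)
    rcases hw0 with h | h
    · exact Or.inl h
    · rcases Nat.eq_zero_or_pos w with h3 | h3
      · right
        constructor <;> omega
      · exact Or.inl h3
  · rw [not_or, not_le, not_le] at hw0
    have hw1 : w = 0 := by omega
    subst hw1
    have h4 : 4 * m ≤ s * (s - 2) := by
      rcases hyp with h | h | h
      · exact absurd (by omega) h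
      · omega
      · exact h
    have h5 : s = 2 * (D + 2) := by omega
    subst h5
    have h6 : m ≤ (D + 2) * (D + 2 - 1) := by
      have e2 : 2 * (D + 2) - 2 = 2 * (D + 1) := by omega
      have e3 : D + 2 - 1 = D + 1 := by omega
      rw [e2] at h4
      rw [e3]
      nlinarith
    have := sq_tight (K := K) (D + 2) m (by omega) (by omega) h6
    rw [Nat.add_sub_cancel] at this
    exact Good.le (min_le_left _ _) this

end Pool.Agent.Helper6.SQ
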