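import Pool.Agent.Helper6.SQ.StripE
import Pool.Agent.Helper6.SQ.P

set_option autoImplicit false

/-! # Project SQ6 (helper6), MP_e6aa12_ag: module Flat

Rows compared with the linear rows `x (m - c) + f m`, `f` unit moves, slope `x + 2 f`. -/

namespace Pool.Agent.Helper6.SQ

open Pool.Agent.Helper41.Fat Pool.Agent.Helper7.NM

variable {K : Type*} [Field K]

theorem lin_E [Infinite K] (x f m : ℕ) (n : ℕ → ℕ) (hn : Antitone n) (h0 : ∀ c, m < c → n c = 0)
    (h : ∀ c ≤ m, n c ≤ x * (m - c) + f * m) :
    Good K (x + 2 * f) m n (∑ c ∈ Finset.range (m + 1), n c) := by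
  refine good_uni m f _ hn ?_
  have key := unit_E m m le_rfl f (x : ℤ) ((f : ℤ) * m) n hn h0 ?_ ?_
  · have hfin := good_final_E (K := K) (r := x + 2 * f) (m := m) (Q := m)
      (n := uni m f n) (uni_of_lt m f _ h0) ?_ key.2
    · rwa [uni_sum] at hfin
    · intro c hc
      by_cases hc0 : uni m f n c = 0
      · rw [hc0]; exact Nat.zero_le _
      · have h3 := key.1 c hc hc0
        have h4 : ((m : ℤ) - c) = ((m - c : ℕ) : ℤ) := by omega
        rw [h4] at h3
        exact_mod_cast h3
  · intro c hc _
    have h1 := h c hc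
    have h2 : ((m - c : ℕ) : ℤ) = (m : ℤ) - c := by omega
    have h3 : (n c : ℤ) ≤ x * ((m - c : ℕ) : ℤ) + f * m := by exact_mod_cast h1
    rwa [h2] at h3
  · rw [Finset.Ioc_self, Finset.sum_empty, Finset.filter_empty, Finset.card_empty]
    push_cast
    have : (0 : ℤ) ≤ m := by positivity
    linarith

theorem lin_R [Infinite K] (x f m : ℕ) (n : ℕ → ℕ)
    (h : ∀ c ≤ m, x * (m - c) + f * m ≤ n c) :
    Good K (x + 2 * f) m n ((x + 2 * f) * (m + 1).choose 2) := by
  set n' : ℕ → ℕ := fun c => if c ≤ m then x * (m - c) + f * m else 0 with hn'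
  have hle : ∀ c, n' c ≤ n c := by
    intro c
    rw [hn']
    dsimp only
    split_ifs with hc
    · exact h c hc
    · exact Nat.zero_le _
  have hanti : Antitone n' := by
    intro i j hij
    rw [hn']
    dsimp only
    split_ifs with h1 h2
    · have : x * (m - j) ≤ x * (m - i) := Nat.mul_le_mul_left _ (by omega)
      omega
    · omega
    · exact Nat.zero_le _
    · exact le_rfl
  refine Good.mono hle (good_uni m f _ hanti ?_)
  have hm1 : n' m = f * m := by
    rw [hn']
    simp
  have key := unit_R m m le_rfl f x n' hanti ?_ ?_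
  · exact good_final_R fun c hc => key c hc.le
  · intro c hc
    rw [hm1, hn']
    dsimp only
    rw [if_pos hc]
  · rw [Finset.Ioc_self, Finset.sum_empty, Finset.filter_empty, Finset.card_empty, hm1]
    have : (m + 1) * (f * m) = f * (m * (m + 1)) := by ring
    omega

theorem sum_lin (x m κ : ℕ) (E : ℕ → ℕ) :
    ∑ c ∈ Finset.range (m + 1), (x * (m - c) + κ + E c)
      = x * (m + 1).choose 2 + (m + 1) * κ + ∑ c ∈ Finset.range (m + 1), E c := by
  rw [Finset.sum_add_distrib, Finset.sum_add_distrib, ← Finset.mul_sum, Finset.sum_const,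
    Finset.card_range, smul_eq_mul, Finset.sum_range_succ (fun c => m - c), Nat.sub_self, add_zero,
    sum_stair]

/-- A flat state is exact. -/
theorem flat_good [Infinite K] (x f m κ ρ : ℕ) (hx : 1 ≤ x) (E : ℕ → ℕ) (hE : ∀ c, E c ≤ 1)
    (h1 : ρ ≤ (x + 2 * f) * (m + 1).choose 2)
    (h2 : ρ ≤ ∑ c ∈ Finset.range (m + 1), (x * (m - c) + κ + E c)) :
    Good K (x + 2 * f) m (fun c => if c ≤ m then x * (m - c) + κ + E c else 0) ρ := by
  have hch := two_mul_choose m
  rw [sum_lin] at h2
  set X := ∑ c ∈ Finset.range (m + 1), E c with hX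
  have hXle : ∀ c ≤ m, E c ≤ X := by
    intro c hc
    exact Finset.single_le_sum (f := E) (fun _ _ => Nat.zero_le _)
      (Finset.mem_range.2 (by omega))
  have e1 : (x + 2 * f) * (m + 1).choose 2 = x * (m + 1).choose 2 + f * (m * (m + 1)) := by
    rw [← hch]; ring
  have e2 : f * (m * (m + 1)) = (m + 1) * (f * m) := by ring
  have hsum : ∑ c ∈ Finset.range (m + 1), (if c ≤ m then x * (m - c) + κ + E c else 0)
      = x * (m + 1).choose 2 + (m + 1) * κ + X := by
    rw [hX, ← sum_lin]
    refine Finset.sum_congr rfl fun c hc => ?_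
    rw [Finset.mem_range] at hc
    rw [if_pos (by omega)]
  rcases Nat.lt_or_ge ((m + 1) * κ + X) ((m + 1) * (f * m)) with hlt | hge
  · -- emptiness
    have hκ : κ + 1 ≤ f * m := by
      by_contra hcon
      have h3 : (m + 1) * (f * m) ≤ (m + 1) * κ := Nat.mul_le_mul_left _ (by omega)
      omega
    have hg := lin_E (K := K) x f m (fun c => if c ≤ m then x * (m - c) + κ + E c else 0) ?_ ?_ ?_
    · rw [hsum] at hg
      exact Good.le (by omega) hg
    · intro i j hij
      dsimp only
      split_ifs with h3 h4
      · rcases Nat.eq_or_lt_of_le hij with h5 | h5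
        · rw [h5]
        · have h6 : x * (m - j) + x * 1 ≤ x * (m - i) := by
            rw [← mul_add]
            exact Nat.mul_le_mul_left _ (by omega)
          have := hE j
          omega
      · omega
      · exact Nat.zero_le _
      · exact le_rfl
    · intro c hc
      rw [if_neg (by omega)]
    · intro c hc
      rw [if_pos hc]
      have := hE c
      omega
  · -- regularity
    refine Good.le h1 (lin_R x f m _ fun c hc => ?_)
    rw [if_pos hc]
    have hcase : f * m ≤ κ + E c := by
      by_contra hcon
      rw [not_le] at hcon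
      have h3 : (m + 1) * (κ + 1) ≤ (m + 1) * (f * m) ∨ f * m ≤ κ := by
        rcases Nat.lt_or_ge κ (f * m) with h | h
        · exact Or.inl (Nat.mul_le_mul_left _ h)
        · exact Or.inr h
      rcases h3 with h3 | h3
      · have h4 : (m + 1) * (κ + 1) = (m + 1) * κ + (m + 1) := by ring
        -- so `X = m + 1` and all `E c = 1`
        have h5 : m + 1 ≤ X := by omega
        have h6 : X ≤ m + 1 := by
          calc X ≤ ∑ _c ∈ Finset.range (m + 1), 1 := Finset.sum_le_sum fun c _ => hE c
            _ = m + 1 := by simp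
        have h7 : E c = 1 := by
          by_contra h8
          have h9 : E c = 0 := by have := hE c; omega
          have h10 : X ≤ ∑ c' ∈ (Finset.range (m + 1)).erase c, 1 := by
            rw [hX, ← Finset.sum_erase (Finset.range (m + 1)) h9]
            exact Finset.sum_le_sum fun c _ => hE c
          rw [Finset.sum_const, smul_eq_mul, mul_one, Finset.card_erase_of_mem
            (Finset.mem_range.2 (by omega)), Finset.card_range] at h10
          omega
        have h11 : (m + 1) * (f * m) ≤ (m + 1) * (κ + 1) := by omega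
        have h12 : f * m ≤ κ + 1 := Nat.le_of_mul_le_mul_left h11 (Nat.succ_pos m)
        omega
      · omega
    omega

end Pool.Agent.Helper6.SQ
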