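import Pool.Agent.Helper6.SQ.StripE
import Pool.Agent.Helper6.SQ.P

set_option autoImplicit false

/-! # Project SQ6 (helper6), MP_e6aa12_ag: module StripZero

The case `e = 0`: the last row of the strips is the row `m` (or a smaller one). -/

namespace Pool.Agent.Helper6.SQ

open Pool.Agent.Helper41.Fat Pool.Agent.Helper7.NM

variable {K : Type*} [Field K]

/-- Emptiness if the row `m` is the last row and has at most `f m` cells. -/
theorem strip_E0 [Infinite K] (a f m τ d : ℕ) (ha : 0 < a) (hd : d + 1 = a * m + τ) (hτ : τ ≤ a)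
    (h : τ * (τ + 1) ≤ 2 * (f * m)) :
    Good K (a ^ 2 + 2 * f) m (fun b => d + 1 - b) ((d + 2).choose 2) := by
  rcases Nat.lt_or_ge d m with hdm | hmd
  · -- the triangle is contained in the rows below `m`
    refine start a d ha ?_
    have hlast := PAux.last a m τ d hd hτ
    have hle : ∀ c < m, strip a d c ≤ (a ^ 2 + 2 * f) * (m - c) := by
      intro c hc
      have h1 : strip a d c ≤ a ^ 2 * (m - c) + 0 := by
        have h2 : d < m * a := by
          have h3 : a * m + τ = d + 1 := hd.symm
          have h4 : m ≤ a * m := Nat.le_mul_of_pos_left _ ha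
          have h5 : m * a = a * m := mul_comm _ _
          omega
        exact strip_le a d m c hc.le h2
      have h3 : a ^ 2 * (m - c) ≤ (a ^ 2 + 2 * f) * (m - c) :=
        Nat.mul_le_mul_right _ (Nat.le_add_right _ _)
      omega
    have hfin := good_final_E (K := K) (r := a ^ 2 + 2 * f) (m := m) (Q := d) (n := strip a d)
      (strip_far a d ha) hle (fun c hc => strip_far a d ha c (by omega))
    rwa [strip_sum a d ha] at hfin
  refine start a d ha (good_uni d f _ (strip_antitone a d) ?_)
  have hfull : ∀ c < m, 2 * (strip a d c : ℤ) = 2 * (a : ℤ) * (d + 1 - a * c) - a * (a - 1) := by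
    intro c hc
    refine strip_full a d c ?_
    have : a * (c + 1) ≤ a * m := Nat.mul_le_mul_left _ hc
    omega
  have hlast := PAux.last a m τ d hd hτ
  have hzero : ∀ c ∈ Finset.Ioc m d, strip a d c = 0 := by
    intro c hc
    rw [Finset.mem_Ioc] at hc
    refine strip_zero a d c ?_
    have h1 : a * (m + 1) ≤ a * c := Nat.mul_le_mul_left _ hc.1
    have h2 : a * (m + 1) = a * m + a := by ring
    rw [mul_comm c a]
    omega
  have key := unit_E m d hmd f ((a : ℤ) ^ 2) (strip a d m : ℤ) (strip a d)
    (strip_antitone a d) (strip_far a d ha) ?_ ?_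
  · have hfin := good_final_E (K := K) (r := a ^ 2 + 2 * f) (m := m) (Q := d)
      (n := uni d f (strip a d)) (uni_of_lt d f _ (strip_far a d ha)) ?_ key.2
    · rwa [uni_sum, strip_sum a d ha] at hfin
    · intro c hc
      by_cases h0 : uni d f (strip a d) c = 0
      · rw [h0]; exact Nat.zero_le _
      · have h3 := key.1 c hc h0
        have h4 : ((m : ℤ) - c) = ((m - c : ℕ) : ℤ) := by omega
        rw [h4] at h3
        exact_mod_cast h3
  · intro c hc _
    rcases Nat.lt_or_ge c m with hcm | hcm
    · have h3 := hfull c hcm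
      have h4 := strip_lower a d m ha
      nlinarith
    · have : c = m := by omega
      subst this
      simp
  · have h5 : ∑ c ∈ Finset.Ioc m d, (strip a d c : ℤ) = 0 :=
      Finset.sum_eq_zero fun c hc => by rw [hzero c hc]; rfl
    have h6 : (Finset.Ioc m d).filter (fun c => strip a d c ≠ 0) = ∅ := by
      refine Finset.filter_eq_empty_iff.2 fun c hc => ?_
      rw [not_not]
      exact hzero c hc
    rw [h5, h6]
    have h7 : strip a d m ≤ f * m := by omega
    have h8 : (strip a d m : ℤ) ≤ f * m := by exact_mod_cast h7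
    have h9 : (strip a d m : ℤ) * (m + 1) ≤ (f * m) * (m + 1) :=
      mul_le_mul_of_nonneg_right h8 (by positivity)
    simp only [Finset.card_empty, Nat.cast_zero, mul_zero, add_zero]
    have h10 : (0 : ℤ) ≤ m := by positivity
    linarith

/-- Regularity if the linear extrapolation at `m` is at least `f m`. -/
theorem strip_R0 [Infinite K] (a f m d : ℕ) (ha : 0 < a) (hmd : m ≤ d)
    (h : 2 * ((f : ℤ) * m) + a * (a - 1) ≤ 2 * a * ((d : ℤ) + 1 - a * m)) :
    Good K (a ^ 2 + 2 * f) m (fun b => d + 1 - b) ((a ^ 2 + 2 * f) * (m + 1).choose 2) := by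
  -- the linear rows `a ^ 2 (m - c) + f m`
  set n : ℕ → ℕ := fun c => if c ≤ m then a ^ 2 * (m - c) + f * m else 0 with hn
  have hle : ∀ c, n c ≤ strip a d c := by
    intro c
    rw [hn]
    dsimp only
    split_ifs with hc
    · have h1 := strip_lower a d c ha
      have h2 : ((m - c : ℕ) : ℤ) = (m : ℤ) - c := by omega
      have h3 : ((a : ℤ) ^ 2 * ((m - c : ℕ) : ℤ) + f * m) ≤ strip a d c := by
        rw [h2]
        nlinarith
      exact_mod_cast h3
    · exact Nat.zero_le _
  have hanti : Antitone n := by
    intro i j hij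
    rw [hn]
    dsimp only
    split_ifs with h1 h2
    · have : a ^ 2 * (m - j) ≤ a ^ 2 * (m - i) := Nat.mul_le_mul_left _ (by omega)
      omega
    · omega
    · exact Nat.zero_le _
    · exact le_rfl
  refine start a d ha (Good.mono hle (good_uni d f _ hanti ?_))
  have hm1 : n m = f * m := by
    rw [hn]
    simp
  have hzero : ∀ c ∈ Finset.Ioc m d, n c = 0 := by
    intro c hc
    rw [Finset.mem_Ioc] at hc
    rw [hn]
    dsimp only
    rw [if_neg (by omega)]
  have key := unit_R m d hmd f (a ^ 2) n hanti ?_ ?_
  · exact good_final_R fun c hc => key c hc.le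
  · intro c hc
    rw [hm1, hn]
    dsimp only
    rw [if_pos hc]
  · have h5 : ∑ c ∈ Finset.Ioc m d, n c = 0 := Finset.sum_eq_zero hzero
    have h6 : (Finset.Ioc m d).filter (fun c => n c ≠ 0) = ∅ := by
      refine Finset.filter_eq_empty_iff.2 fun c hc => ?_
      rw [not_not]
      exact hzero c hc
    rw [h5, h6, hm1]
    simp only [Finset.card_empty, mul_zero, add_zero]
    have : (m + 1) * (f * m) = f * (m * (m + 1)) := by ring
    omega

end Pool.Agent.Helper6.SQ
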