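import Pool.Agent.Helper7.NM.Move
import Pool.Agent.Helper7.NM.Unit

set_option autoImplicit false

/-! # Project SQ6 (helper6), MP_e6aa12_ag: squares in every characteristic. Basic lemmas.

`uni Q t n`: the rows after `t` nodal moves of degree `1`. -/

namespace Pool.Agent.Helper6.SQ

open Pool.Agent.Helper41.Fat Pool.Agent.Helper7.NM

variable {K : Type*} [Field K]

/-- The rows after `t` nodal moves of degree one. -/
def uni (Q : ℕ) : ℕ → (ℕ → ℕ) → ℕ → ℕ
  | 0, n => n
  | t + 1, n => uni Q t (nod 1 Q n)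

theorem uni_zero (Q : ℕ) (n : ℕ → ℕ) : uni Q 0 n = n := rfl

theorem uni_succ (Q t : ℕ) (n : ℕ → ℕ) : uni Q (t + 1) n = uni Q t (nod 1 Q n) := rfl

theorem uni_antitone (Q : ℕ) : ∀ (t : ℕ) (n : ℕ → ℕ), Antitone n → Antitone (uni Q t n) := by
  intro t
  induction t with
  | zero => intro n hn; exact hn
  | succ t ih => intro n hn; exact ih _ (nod_antitone hn)

theorem uni_of_lt (Q : ℕ) : ∀ (t : ℕ) (n : ℕ → ℕ), (∀ c, Q < c → n c = 0) →
    ∀ c, Q < c → uni Q t n c = 0 := by
  intro t
  induction t with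
  | zero => intro n hn c hc; exact hn c hc
  | succ t ih => intro n hn c hc; exact ih _ (fun c hc => nod_of_lt n hc) c hc

theorem uni_sum (Q : ℕ) : ∀ (t : ℕ) (n : ℕ → ℕ),
    ∑ i ∈ Finset.range (Q + 1), uni Q t n i = ∑ c ∈ Finset.range (Q + 1), n c := by
  intro t
  induction t with
  | zero => intro n; rfl
  | succ t ih => intro n; rw [uni_succ, ih, nod_sum]

theorem good_uni [Infinite K] {r m R : ℕ} (Q : ℕ) : ∀ (t : ℕ) (n : ℕ → ℕ), Antitone n →
    Good K r m (uni Q t n) R → Good K r m n R := by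
  intro t
  induction t with
  | zero => intro n _ h; exact h
  | succ t ih =>
    intro n hn h
    exact nodal_move 1 Q (fun c c' h1 _ => hn h1) (ih _ (nod_antitone hn) h)

theorem strip_antitone (a d : ℕ) : Antitone (strip a d) := by
  intro i j hij
  refine Finset.sum_le_sum fun s _ => ?_
  have : i * a ≤ j * a := Nat.mul_le_mul_right _ hij
  omega

/-- The start: strips of width `a`, in every characteristic. -/
theorem start [Infinite K] {r m R : ℕ} (a d : ℕ) (ha : 0 < a) (h : Good K r m (strip a d) R) :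
    Good K r m (fun b => d + 1 - b) R := by
  refine nodal_move (a - 1) d (fun c c' h1 _ => by omega) ?_
  have : nod (a - 1) d (fun b => d + 1 - b) = strip a d := by
    funext i
    exact nod_stair ha d i
  rw [this]
  exact h

theorem strip_far (a d : ℕ) (ha : 0 < a) : ∀ c, d < c → strip a d c = 0 := by
  intro c hc
  refine strip_zero a d c ?_
  have : c * 1 ≤ c * a := Nat.mul_le_mul_left _ ha
  omega

theorem strip_sum (a d : ℕ) (ha : 0 < a) :
    ∑ c ∈ Finset.range (d + 1), strip a d c = (d + 2).choose 2 := by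
  refine sum_strip_total a d (d + 1) ?_
  exact Nat.le_mul_of_pos_right _ ha

/-- Emptiness: all rows fit. -/
theorem good_final_E {r m Q : ℕ} {n : ℕ → ℕ} (hQ : ∀ c, Q < c → n c = 0)
    (h1 : ∀ c < m, n c ≤ r * (m - c)) (h2 : ∀ c, m ≤ c → n c = 0) :
    Good K r m n (∑ c ∈ Finset.range (Q + 1), n c) := by
  have hf := Good.final (K := K) r m n
  have e1 : ∑ c ∈ Finset.range m, min (n c) (r * (m - c)) = ∑ c ∈ Finset.range m, n c :=
    Finset.sum_congr rfl fun c hc => min_eq_left (h1 c (Finset.mem_range.1 hc))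
  have e2 : ∑ c ∈ Finset.range m, n c = ∑ c ∈ Finset.range (Q + 1), n c := by
    rcases Nat.le_total m (Q + 1) with h | h
    · refine Finset.sum_subset (Finset.range_subset_range.2 h) fun c _ hc => ?_
      rw [Finset.mem_range] at hc
      exact h2 c (by omega)
    · refine (Finset.sum_subset (Finset.range_subset_range.2 h) fun c _ hc => ?_).symm
      rw [Finset.mem_range] at hc
      exact hQ c (by omega)
  rw [e1, e2] at hf
  exact hf

/-- Regularity: all rows are full. -/
theorem good_final_R {r m : ℕ} {n : ℕ → ℕ} (h : ∀ c < m, r * (m - c) ≤ n c) :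
    Good K r m n (r * (m + 1).choose 2) := by
  have hf := Good.final (K := K) r m n
  have e1 : ∑ c ∈ Finset.range m, min (n c) (r * (m - c)) = r * (m + 1).choose 2 := by
    rw [← sum_stair, Finset.mul_sum]
    exact Finset.sum_congr rfl fun c hc => min_eq_right (h c (Finset.mem_range.1 hc))
  rw [e1] at hf
  exact hf

/-- Lower bound for the strips, in `ℤ`. -/
theorem strip_lower (a d c : ℕ) (ha : 0 < a) :
    2 * (a : ℤ) * (d + 1 - a * c) - a * (a - 1) ≤ 2 * (strip a d c : ℤ) := by
  have h1 : (strip a d c : ℤ) = ∑ s ∈ Finset.range a, ((d + 1 - (c * a + s) : ℕ) : ℤ) := by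
    rw [strip]; push_cast; rfl
  have h2 : ∑ s ∈ Finset.range a, ((d : ℤ) + 1 - c * a - s)
      ≤ ∑ s ∈ Finset.range a, ((d + 1 - (c * a + s) : ℕ) : ℤ) := by
    refine Finset.sum_le_sum fun s _ => ?_
    have : (d : ℤ) + 1 - c * a - s = ((d + 1 : ℕ) : ℤ) - ((c * a + s : ℕ) : ℤ) := by
      push_cast; ring
    rw [this]
    omega
  have h3 : ∀ b : ℕ, 2 * ∑ s ∈ Finset.range b, ((d : ℤ) + 1 - c * a - s)
      = 2 * b * (d + 1 - a * c) - b * (b - 1) := by
    intro b
    induction b with
    | zero => simp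
    | succ b ih =>
      rw [Finset.sum_range_succ, mul_add, ih]
      push_cast
      ring
  have h4 := h3 a
  rw [h1]
  linarith

/-- The exact value of a full strip, in `ℤ`. -/
theorem strip_full (a d c : ℕ) (h : a * (c + 1) ≤ d + 1) :
    2 * (strip a d c : ℤ) = 2 * (a : ℤ) * (d + 1 - a * c) - a * (a - 1) := by
  have h1 : (strip a d c : ℤ) = ∑ s ∈ Finset.range a, ((d : ℤ) + 1 - c * a - s) := by
    rw [strip]
    push_cast
    refine Finset.sum_congr rfl fun s hs => ?_
    rw [Finset.mem_range] at hs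
    have e1 : a * (c + 1) = c * a + a := by ring
    have e2 : ((d + 1 - (c * a + s) : ℕ) : ℤ) = ((d + 1 : ℕ) : ℤ) - ((c * a + s : ℕ) : ℤ) := by
      omega
    rw [e2]
    push_cast
    ring
  have h3 : ∀ b : ℕ, 2 * ∑ s ∈ Finset.range b, ((d : ℤ) + 1 - c * a - s)
      = 2 * b * (d + 1 - a * c) - b * (b - 1) := by
    intro b
    induction b with
    | zero => simp
    | succ b ih =>
      rw [Finset.sum_range_succ, mul_add, ih]
      push_cast
      ring
  rw [h1, h3]

end Pool.Agent.Helper6.SQ
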