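import Pool.Agent.Helper6.SQ.Flat
import Pool.Agent.Helper7.FreeMove
import Pool.Agent.Helper42.Canon

set_option autoImplicit false

/-! # Project SQ6 (helper6), MP_e6aa12_ag: module Event

The interval move `x + 1` (valid in every characteristic) when the last row of a canonical state
disappears: the extra cells stay flat. -/

namespace Pool.Agent.Helper6.SQ

open Pool.Agent.Helper41.Fat Pool.Agent.Helper7.NM Pool.Agent.Helper42.Canon
open Pool.Agent.Helper42.Game

variable {K : Type*} [Field K]

theorem EventAux.low (x q t X i u c : ℕ) (hi : i ≤ q) (h1 : (x + 1) * i ≤ u) (h2 : u < x * q + t)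
    (hc : c ≤ i) : c ∈ act (x + 1) (q + 1) (S x q t X) u := by
  rw [mem_act]
  have hcq : c ≤ q := by omega
  have h3 := S_end x q t X c hcq
  have h4 : (x + 1) * c ≤ (x + 1) * i := Nat.mul_le_mul_left _ (by omega)
  refine ⟨by omega, by omega, by omega⟩

theorem EventAux.high (x q t X w c : ℕ) (hq : q ≤ x + 1 + t)
    (hc1 : (if w < X then w else w + 1) ≤ c) (hc2 : c < (if q ≤ t + w then q + 1 else q)) :
    c ∈ act (x + 1) (q + 1) (S x q t X) (x * q + t + w) := by
  rw [mem_act]
  have hcq : c ≤ q := by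
    split_ifs at hc2 <;> omega
  have h3 := S_end x q t X c hcq
  refine ⟨by omega, ?_, ?_⟩
  · rcases Nat.lt_or_ge c q with hlt | hge
    · have e : x * q = x * c + x * (q - c) := by rw [← mul_add]; congr 1; omega
      have e2 : (x + 1) * c = x * c + c := by ring
      have e3 : x * 1 ≤ x * (q - c) := Nat.mul_le_mul_left x (by omega)
      have e4 : x ≤ x * (q - c) := by simpa using e3
      rw [e2, e]
      -- need `c ≤ x (q - c) + t + w`
      have e5 : (q - c) - 1 ≤ x * (q - c) - x ∨ x = 0 := by
        rcases Nat.eq_zero_or_pos x with h | h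
        · right; exact h
        · left
          obtain ⟨y, hy⟩ : ∃ y, q - c = y + 1 := ⟨q - c - 1, by omega⟩
          rw [hy]
          have : x * (y + 1) = x * y + x := by ring
          have : y ≤ x * y := Nat.le_mul_of_pos_left y h
          omega
      omega
    · have : c = q := by omega
      subst this
      have h5 : c ≤ t + w := by
        by_contra hcon
        rw [if_neg hcon] at hc2
        omega
      have e2 : (x + 1) * c = x * c + c := by ring
      omega
  · split_ifs at h3 hc1 <;> omega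

/-- The last row disappears, few extra cells. -/
theorem EventAux.growB (x q t X : ℕ) (hq : q ≤ x + 1 + t) (hX : X + t + 1 ≤ q) :
    Pool.Agent.Helper7.Free.StepI (x + 1) (S x q t X)
      (fun i => if i + 1 ≤ q then (x + 2) * (q - 1 - i) + (x + 1 + t - q)
        + (if i < t ∨ q ≤ X + i then 1 else 0) else 0) := by
  refine ⟨q + 1, fun i => ?_⟩
  by_cases hi : i + 1 ≤ q
  · simp only [if_pos hi]
    refine ⟨(x + 1) * i, le_rfl, fun u hu1 hu2 => ?_⟩
    obtain ⟨j, rfl⟩ : ∃ j, q = i + j + 1 := ⟨q - 1 - i, by omega⟩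
    have e0 : i + j + 1 - 1 - i = j := by omega
    rw [e0] at hu2
    have e1 : (x + 1) * i = x * i + i := by ring
    have e2 : (x + 2) * j = x * j + 2 * j := by ring
    have e3 : x * (i + j + 1) = x * i + x * j + x := by ring
    have hend : u < x * (i + j + 1) + t + j + (if i < t ∨ i + j + 1 ≤ X + i then 1 else 0) := by
      omega
    by_cases hlt : u < x * (i + j + 1) + t
    · exact ⟨0, fun c _ hc => EventAux.low x _ t X i u c (by omega) hu1 hlt (by omega)⟩
    · obtain ⟨w, rfl⟩ : ∃ w, u = x * (i + j + 1) + t + w := ⟨u - (x * (i + j + 1) + t), by omega⟩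
      refine ⟨if w < X then w else w + 1, fun c hc1 hc2 => EventAux.high x _ t X w c hq hc1 ?_⟩
      split_ifs at hc2 hend ⊢ <;> omega
  · simp only [if_neg hi]
    exact ⟨(x + 1) * i, le_rfl, fun u h1 h2 => by omega⟩

/-- The last row disappears, many extra cells. -/
theorem EventAux.growC (x q t X : ℕ) (hq : q ≤ x + 1 + t) (ht : t < q) (hXq : X ≤ q)
    (hX : q ≤ X + t) :
    Pool.Agent.Helper7.Free.StepI (x + 1) (S x q t X)
      (fun i => if i + 1 ≤ q then (x + 2) * (q - 1 - i) + (x + 2 + t - q)
        + (if q + 1 ≤ X + i ∧ i ≤ t then 1 else 0) else 0) := by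
  refine ⟨q + 1, fun i => ?_⟩
  by_cases hi : i + 1 ≤ q
  · simp only [if_pos hi]
    refine ⟨(x + 1) * i, le_rfl, fun u hu1 hu2 => ?_⟩
    obtain ⟨j, rfl⟩ : ∃ j, q = i + j + 1 := ⟨q - 1 - i, by omega⟩
    have e0 : i + j + 1 - 1 - i = j := by omega
    rw [e0] at hu2
    have e1 : (x + 1) * i = x * i + i := by ring
    have e2 : (x + 2) * j = x * j + 2 * j := by ring
    have e3 : x * (i + j + 1) = x * i + x * j + x := by ring
    have hend : u < x * (i + j + 1) + t + (j + 1)
        + (if i + j + 1 + 1 ≤ X + i ∧ i ≤ t then 1 else 0) := by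
      omega
    by_cases hlt : u < x * (i + j + 1) + t
    · exact ⟨0, fun c _ hc => EventAux.low x _ t X i u c (by omega) hu1 hlt (by omega)⟩
    · obtain ⟨w, rfl⟩ : ∃ w, u = x * (i + j + 1) + t + w := ⟨u - (x * (i + j + 1) + t), by omega⟩
      refine ⟨if w < X then w else w + 1, fun c hc1 hc2 => EventAux.high x _ t X w c hq hc1 ?_⟩
      split_ifs at hc2 hend ⊢ <;> omega
  · simp only [if_neg hi]
    exact ⟨(x + 1) * i, le_rfl, fun u h1 h2 => by omega⟩

end Pool.Agent.Helper6.SQ
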