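import Pool.Agent.Helper6.SQ.UnitR

set_option autoImplicit false

/-! # Project SQ6 (helper6), MP_e6aa12_ag: module StripE

Strips of width `a` and then unit moves, in every characteristic: the region theorem for
`r = a ^ 2 + 2 f`, with `a (m + 1) ≤ d < a (m + e + 1)`. For `e = 1` it is exact. -/

namespace Pool.Agent.Helper6.SQ

open Pool.Agent.Helper41.Fat Pool.Agent.Helper7.NM

variable {K : Type*} [Field K]

theorem StripEAux.sum_full (a d m : ℕ) (h1 : a * (m + 1) ≤ d + 1) :
    2 * ∑ c ∈ Finset.range (m + 1), (strip a d c : ℤ)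
      = (m + 1) * (2 * a * (d + 1) - a * (a - 1)) - a ^ 2 * (m * (m + 1)) := by
  have h2 : ∀ k : ℕ, k ≤ m + 1 → 2 * ∑ c ∈ Finset.range k, (strip a d c : ℤ)
      = k * (2 * a * (d + 1) - a * (a - 1)) - a ^ 2 * (k * (k - 1)) := by
    intro k
    induction k with
    | zero => simp
    | succ k ih =>
      intro hk
      have h3 : a * (k + 1) ≤ d + 1 := (Nat.mul_le_mul_left a hk).trans h1
      rw [Finset.sum_range_succ, mul_add, ih (by omega), strip_full a d k h3]
      push_cast
      ring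
  rw [h2 (m + 1) le_rfl]
  push_cast
  ring

theorem StripEAux.card_le (a d m e : ℕ) (he : d < a * (m + e + 1)) :
    ((Finset.Ioc m d).filter (fun c => strip a d c ≠ 0)).card ≤ e := by
  have h5 : ((Finset.Ioc m d).filter (fun c => strip a d c ≠ 0)) ⊆ Finset.Ioc m (m + e) := by
    intro c hc
    rw [Finset.mem_filter, Finset.mem_Ioc] at hc
    rw [Finset.mem_Ioc]
    refine ⟨hc.1.1, ?_⟩
    by_contra hcon
    apply hc.2
    refine strip_zero a d c ?_
    have h6 : a * (m + e + 1) ≤ a * c := Nat.mul_le_mul_left _ (by omega)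
    rw [mul_comm c a]
    omega
  have h6 := Finset.card_le_card h5
  rw [Nat.card_Ioc] at h6
  omega

theorem StripEAux.pot (a d m : ℕ) (ha : 0 < a) (h1 : a * (m + 1) ≤ d + 1) :
    2 * ((strip a d m : ℤ) * (m + 1)) + 2 * ∑ c ∈ Finset.Ioc m d, (strip a d c : ℤ)
      = ((d : ℤ) + 1) * (d + 2) - a ^ 2 * (m * (m + 1)) := by
  have hmd : m + 1 ≤ d + 1 := (Nat.le_mul_of_pos_left (m + 1) ha).trans h1
  have h5 : Finset.Ioc m d = Finset.Ico (m + 1) (d + 1) := by
    ext c
    simp only [Finset.mem_Ioc, Finset.mem_Ico]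
    omega
  have h6 := Finset.sum_range_add_sum_Ico (fun c => (strip a d c : ℤ)) hmd
  have h7 : ∑ c ∈ Finset.range (d + 1), (strip a d c : ℤ) = (((d + 2).choose 2 : ℕ) : ℤ) := by
    exact_mod_cast strip_sum a d ha
  have h8 : 2 * (((d + 2).choose 2 : ℕ) : ℤ) = ((d : ℤ) + 1) * (d + 2) := by
    exact_mod_cast two_mul_choose (d + 1)
  have h9 := StripEAux.sum_full a d m h1
  have h4 := strip_full a d m h1
  have h11 : 2 * ((strip a d m : ℤ) * (m + 1)) = (2 * (a : ℤ) * (d + 1 - a * m) - a * (a - 1))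
      * (m + 1) := by rw [← h4]; ring
  rw [h5, h11]
  linear_combination 2 * h6 - h9 + h8 + 2 * h7

/-- Emptiness from a strip and unit moves. -/
theorem strip_E [Infinite K] (a f m d e : ℕ) (ha : 0 < a) (h1 : a * (m + 1) ≤ d + 1)
    (he : d < a * (m + e + 1))
    (h2 : (d + 1) * (d + 2) + 2 * (e * m) ≤ (a ^ 2 + 2 * f) * (m * (m + 1)) + 2 * m) :
    Good K (a ^ 2 + 2 * f) m (fun b => d + 1 - b) ((d + 2).choose 2) := by
  have hmd : m + 1 ≤ d + 1 := (Nat.le_mul_of_pos_left (m + 1) ha).trans h1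
  have hfull : ∀ c ≤ m, 2 * (strip a d c : ℤ) = 2 * (a : ℤ) * (d + 1 - a * c) - a * (a - 1) :=
    fun c hc => strip_full a d c ((Nat.mul_le_mul_left _ (by omega)).trans h1)
  refine start a d ha (good_uni d f _ (strip_antitone a d) ?_)
  have key := unit_E m d (by omega) f ((a : ℤ) ^ 2) (strip a d m : ℤ) (strip a d)
    (strip_antitone a d) (strip_far a d ha) ?_ ?_
  · have hfin := good_final_E (K := K) (r := a ^ 2 + 2 * f) (m := m) (Q := d)
      (n := uni d f (strip a d)) (uni_of_lt d f _ (strip_far a d ha)) ?_ key.2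
    · rwa [uni_sum, strip_sum a d ha] at hfin
    · intro c hc
      by_cases h0 : uni d f (strip a d) c = 0
      · rw [h0]; exact Nat.zero_le _
      · have h3 := key.1 c hc h0
        have h4 : ((m : ℤ) - c) = ((m - c : ℕ) : ℤ) := by omega
        rw [h4] at h3
        exact_mod_cast h3
  · intro c hc _
    have h3 := hfull c hc
    have h4 := hfull m le_rfl
    nlinarith
  · have hcard : (((Finset.Ioc m d).filter (fun c => strip a d c ≠ 0)).card : ℤ) ≤ e := by
      exact_mod_cast StripEAux.card_le a d m e he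
    have hpot := StripEAux.pot a d m ha h1
    have h2' : ((d : ℤ) + 1) * (d + 2) + 2 * (e * m)
        ≤ (a ^ 2 + 2 * f) * (m * (m + 1)) + 2 * m := by exact_mod_cast h2
    have h10 : (m : ℤ) * (((Finset.Ioc m d).filter (fun c => strip a d c ≠ 0)).card : ℤ)
        ≤ m * e := mul_le_mul_of_nonneg_left hcard (Int.natCast_nonneg _)
    linarith

/-- Regularity from a strip and unit moves. -/
theorem strip_R [Infinite K] (a f m d e : ℕ) (ha : 0 < a) (h1 : a * (m + 1) ≤ d + 1)
    (he : d < a * (m + e + 1))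
    (h2 : (a ^ 2 + 2 * f) * (m * (m + 1)) + 2 * (e * m) ≤ (d + 1) * (d + 2) + 2 * m) :
    Good K (a ^ 2 + 2 * f) m (fun b => d + 1 - b) ((a ^ 2 + 2 * f) * (m + 1).choose 2) := by
  have hmd : m + 1 ≤ d + 1 := (Nat.le_mul_of_pos_left (m + 1) ha).trans h1
  have hfull : ∀ c ≤ m, 2 * (strip a d c : ℤ) = 2 * (a : ℤ) * (d + 1 - a * c) - a * (a - 1) :=
    fun c hc => strip_full a d c ((Nat.mul_le_mul_left _ (by omega)).trans h1)
  refine start a d ha (good_uni d f _ (strip_antitone a d) ?_)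
  have key := unit_R m d (by omega) f (a ^ 2) (strip a d) (strip_antitone a d) ?_ ?_
  · exact good_final_R fun c hc => key c hc.le
  · intro c hc
    have h3 := hfull c hc
    have h4 := hfull m le_rfl
    have h5 : ((m - c : ℕ) : ℤ) = (m : ℤ) - c := by omega
    have h6 : ((a : ℤ) ^ 2) * ((m - c : ℕ) : ℤ) + strip a d m ≤ strip a d c := by
      rw [h5]
      nlinarith
    exact_mod_cast h6
  · have hcard : (((Finset.Ioc m d).filter (fun c => strip a d c ≠ 0)).card : ℤ) ≤ e := by
      exact_mod_cast StripEAux.card_le a d m e he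
    have hpot := StripEAux.pot a d m ha h1
    have h2' : ((a : ℤ) ^ 2 + 2 * f) * (m * (m + 1)) + 2 * (e * m)
        ≤ ((d : ℤ) + 1) * (d + 2) + 2 * m := by exact_mod_cast h2
    have h10 : (m : ℤ) * (((Finset.Ioc m d).filter (fun c => strip a d c ≠ 0)).card : ℤ)
        ≤ m * e := mul_le_mul_of_nonneg_left hcard (Int.natCast_nonneg _)
    have h11 : (f : ℤ) * (m * (m + 1))
        + m * (((Finset.Ioc m d).filter (fun c => strip a d c ≠ 0)).card : ℤ)
        ≤ (m + 1) * (strip a d m : ℤ) + ∑ c ∈ Finset.Ioc m d, (strip a d c : ℤ) + m := by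
      linarith
    exact_mod_cast h11

/-- **Exactness**: `a (m + 1) ≤ d + 1 ≤ a (m + 2)`. -/
theorem strip_exact [Infinite K] (a f m d : ℕ) (ha : 0 < a) (h1 : a * (m + 1) ≤ d + 1)
    (he : d < a * (m + 2)) :
    Good K (a ^ 2 + 2 * f) m (fun b => d + 1 - b)
      (min ((d + 2).choose 2) ((a ^ 2 + 2 * f) * (m + 1).choose 2)) := by
  have h8 : 2 * (d + 2).choose 2 = (d + 1) * (d + 2) := two_mul_choose (d + 1)
  have h9 : 2 * (m + 1).choose 2 = m * (m + 1) := two_mul_choose m
  have h10 : 2 * ((a ^ 2 + 2 * f) * (m + 1).choose 2) = (a ^ 2 + 2 * f) * (m * (m + 1)) := by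
    rw [← h9]; ring
  rcases le_total ((d + 2).choose 2) ((a ^ 2 + 2 * f) * (m + 1).choose 2) with h | h
  · rw [min_eq_left h]
    exact strip_E a f m d 1 ha h1 (by linarith) (by linarith)
  · rw [min_eq_right h]
    exact strip_R a f m d 1 ha h1 (by linarith) (by linarith)

end Pool.Agent.Helper6.SQ
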