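import Pool.Agent.Helper6.SQ.Base

set_option autoImplicit false

/-! # Project SQ6 (helper6), MP_e6aa12_ag: module UnitE

Unit moves, upper bound. `κ` bounds the row `m`, `g` is the number of nonzero rows in `(m, Q]`, `S` the
sum of these rows. `κ (m + 1) + S + m g` drops by at least `m (m + 1)` with every unit move. -/

namespace Pool.Agent.Helper6.SQ

open Pool.Agent.Helper41.Fat Pool.Agent.Helper7.NM

theorem UnitEAux.tele (a m c : ℕ) (h : m < c) :
    ∑ i ∈ Finset.Ico (m + 1) c, min (a - i) 1 = (a - (m + 1)) - (a - c) := by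
  induction c, h using Nat.le_induction with
  | base => simp
  | succ c hc ih =>
    rw [Finset.sum_Ico_succ_top hc, ih]
    omega

theorem UnitEAux.tail_sum (m Q : ℕ) (n : ℕ → ℕ) :
    ∑ i ∈ Finset.Ioc m Q, nod 1 Q n i = ∑ c ∈ Finset.Ioc m Q, (n c - (m + 1)) := by
  have h1 : ∑ i ∈ Finset.Ioc m Q, nod 1 Q n i
      = ∑ i ∈ Finset.Ioc m Q, ((n i - i) + ∑ c ∈ Finset.Ioc i Q, min (n c - i) 1) := by
    refine Finset.sum_congr rfl fun i hi => ?_
    rw [Finset.mem_Ioc] at hi
    rw [nod, if_pos hi.2, one_mul]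
  have h2 : ∑ i ∈ Finset.Ioc m Q, ∑ c ∈ Finset.Ioc i Q, min (n c - i) 1
      = ∑ c ∈ Finset.Ioc m Q, ∑ i ∈ Finset.Ico (m + 1) c, min (n c - i) 1 := by
    refine Finset.sum_comm' fun i c => ?_
    simp only [Finset.mem_Ioc, Finset.mem_Ico]
    omega
  rw [h1, Finset.sum_add_distrib, h2, ← Finset.sum_add_distrib]
  refine Finset.sum_congr rfl fun c hc => ?_
  rw [Finset.mem_Ioc] at hc
  rw [UnitEAux.tele _ _ _ hc.1]
  omega

theorem unit_E (m Q : ℕ) (hmQ : m ≤ Q) : ∀ (f : ℕ) (σ κ : ℤ) (n : ℕ → ℕ), Antitone n →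
    (∀ c, Q < c → n c = 0) →
    (∀ c ≤ m, n c ≠ 0 → (n c : ℤ) ≤ σ * ((m : ℤ) - c) + κ) →
    κ * (m + 1) + ∑ c ∈ Finset.Ioc m Q, (n c : ℤ)
      + m * (((Finset.Ioc m Q).filter (fun c => n c ≠ 0)).card : ℤ) ≤ f * (m * (m + 1)) + m →
    (∀ c < m, uni Q f n c ≠ 0 → (uni Q f n c : ℤ) ≤ (σ + 2 * f) * ((m : ℤ) - c)) ∧
      ∀ c, m ≤ c → uni Q f n c = 0 := by
  intro f
  induction f with
  | zero =>
    intro σ κ n hn hz h1 h2
    have hS : (0 : ℤ) ≤ ∑ c ∈ Finset.Ioc m Q, (n c : ℤ) :=
      Finset.sum_nonneg fun c _ => Int.natCast_nonneg _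
    have hg : (0 : ℤ) ≤ m * (((Finset.Ioc m Q).filter (fun c => n c ≠ 0)).card : ℤ) := by
      positivity
    have hκ : κ ≤ 0 := by
      by_contra hc
      have h3 : (1 : ℤ) ≤ κ := by omega
      have h4 : (1 : ℤ) * (m + 1) ≤ κ * (m + 1) :=
        mul_le_mul_of_nonneg_right h3 (by positivity)
      push_cast at h2
      linarith
    have hm0 : n m = 0 := by
      by_contra hc
      have h3 := h1 m le_rfl hc
      have h4 : (0 : ℤ) < n m := by exact_mod_cast Nat.pos_of_ne_zero hc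
      rw [sub_self, mul_zero, zero_add] at h3
      linarith
    refine ⟨fun c hc h0 => ?_, fun c hc => ?_⟩
    · rw [uni_zero] at h0 ⊢
      have h3 := h1 c hc.le h0
      push_cast
      linarith
    · rw [uni_zero]
      have := hn hc
      omega
  | succ f ih =>
    intro σ κ n hn hz h1 h2
    rw [uni_succ]
    set g : ℕ := ((Finset.Ioc m Q).filter (fun c => n c ≠ 0)).card with hg
    have key := ih (σ + 2) (κ - m + g) (nod 1 Q n) (nod_antitone hn) (fun c hc => nod_of_lt n hc)
      ?_ ?_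
    · refine ⟨fun c hc h0 => ?_, key.2⟩
      have := key.1 c hc h0
      push_cast
      linarith
    · intro i hi h0
      have hni : i < n i := by
        by_contra hc
        exact h0 (unit_nod_zero hn (by omega))
      have h3 := h1 i hi (by omega)
      have h4 : nod 1 Q n i ≤ (n i - i) + ((m - i) + g) := by
        rw [nod, if_pos (hi.trans hmQ), one_mul]
        have h6 : ∑ c ∈ Finset.Ioc i m, min (n c - i) 1 ≤ m - i := by
          calc ∑ c ∈ Finset.Ioc i m, min (n c - i) 1 ≤ ∑ _c ∈ Finset.Ioc i m, 1 :=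
                Finset.sum_le_sum fun c _ => min_le_right _ _
            _ = m - i := by simp
        have h7 : ∑ c ∈ Finset.Ioc m Q, min (n c - i) 1 ≤ g := by
          rw [hg, Finset.card_filter]
          refine Finset.sum_le_sum fun c _ => ?_
          split_ifs with h8 <;> omega
        have h8 : ∑ c ∈ Finset.Ioc i Q, min (n c - i) 1
            ≤ ∑ c ∈ Finset.Ioc i m, min (n c - i) 1 + ∑ c ∈ Finset.Ioc m Q, min (n c - i) 1 := by
          rw [Finset.sum_Ioc_consecutive _ hi hmQ]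
        omega
      have h9 : (nod 1 Q n i : ℤ) ≤ ((n i : ℤ) - i) + (((m : ℤ) - i) + g) := by omega
      linarith
    · have e1 : ∑ c ∈ Finset.Ioc m Q, (nod 1 Q n c : ℤ)
          = ∑ c ∈ Finset.Ioc m Q, ((n c - (m + 1) : ℕ) : ℤ) := by
        have := UnitEAux.tail_sum m Q n
        exact_mod_cast this
      have e2 : (((Finset.Ioc m Q).filter (fun c => nod 1 Q n c ≠ 0)).card : ℤ)
          ≤ ∑ c ∈ Finset.Ioc m Q, (if m < n c then 1 else 0 : ℤ) := by
        have h5 : ((Finset.Ioc m Q).filter (fun c => nod 1 Q n c ≠ 0)).card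
            ≤ ∑ c ∈ Finset.Ioc m Q, (if m < n c then 1 else 0 : ℕ) := by
          rw [Finset.card_filter]
          refine Finset.sum_le_sum fun c hc => ?_
          rw [Finset.mem_Ioc] at hc
          by_cases hcn : n c ≤ c
          · rw [unit_nod_zero hn (by omega)]
            simp
          · rw [if_pos (show m < n c by omega)]
            split_ifs <;> omega
        exact_mod_cast h5
      have e3 : (g : ℤ) = ∑ c ∈ Finset.Ioc m Q, (if n c ≠ 0 then 1 else 0 : ℤ) := by
        rw [hg, Finset.card_filter]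
        push_cast
        rfl
      have e4 : ∑ c ∈ Finset.Ioc m Q, (if n c ≠ 0 then 1 else 0 : ℤ)
          + ∑ c ∈ Finset.Ioc m Q, ((n c - (m + 1) : ℕ) : ℤ)
          + ∑ c ∈ Finset.Ioc m Q, (m : ℤ) * (if m < n c then 1 else 0 : ℤ)
          ≤ ∑ c ∈ Finset.Ioc m Q, (n c : ℤ) := by
        rw [← Finset.sum_add_distrib, ← Finset.sum_add_distrib]
        refine Finset.sum_le_sum fun c _ => ?_
        split_ifs <;> simp only [mul_one, mul_zero] <;> omega
      have e5 : (m : ℤ) * (((Finset.Ioc m Q).filter (fun c => nod 1 Q n c ≠ 0)).card : ℤ)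
          ≤ ∑ c ∈ Finset.Ioc m Q, (m : ℤ) * (if m < n c then 1 else 0 : ℤ) := by
        rw [← Finset.mul_sum]
        exact mul_le_mul_of_nonneg_left e2 (Int.natCast_nonneg _)
      rw [← e3] at e4
      rw [e1]
      push_cast at h2 ⊢
      linarith

end Pool.Agent.Helper6.SQ
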