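import Pool.Agent.Helper6.SQ.UnitE

set_option autoImplicit false

/-! # Project SQ6 (helper6), MP_e6aa12_ag: module UnitR

Unit moves, lower bound. `(m + 1) n_m + S - g m` (`S` the sum, `g` the number of the nonzero rows in
`(m, Q]`) drops by at most `m (m + 1)` with every unit move. -/

namespace Pool.Agent.Helper6.SQ

open Pool.Agent.Helper41.Fat Pool.Agent.Helper7.NM

theorem unit_R (m Q : ℕ) (hmQ : m ≤ Q) : ∀ (f σ : ℕ) (n : ℕ → ℕ), Antitone n →
    (∀ c ≤ m, σ * (m - c) + n m ≤ n c) →
    f * (m * (m + 1)) + m * ((Finset.Ioc m Q).filter (fun c => n c ≠ 0)).card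
      ≤ (m + 1) * n m + ∑ c ∈ Finset.Ioc m Q, n c + m →
    ∀ c ≤ m, (σ + 2 * f) * (m - c) ≤ uni Q f n c := by
  intro f
  induction f with
  | zero =>
    intro σ n hn h1 h2 c hc
    have := h1 c hc
    rw [uni_zero]
    rw [mul_zero, add_zero]
    omega
  | succ f ih =>
    intro σ n hn h1 h2
    set g : ℕ := ((Finset.Ioc m Q).filter (fun c => n c ≠ 0)).card with hg
    set g1 : ℕ := ((Finset.Ioc m Q).filter (fun c => m < n c)).card with hg1
    -- the row `m` is long
    have hnm : m ≤ n m := by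
      by_contra hcon
      rw [not_le] at hcon
      have h3 : ∑ c ∈ Finset.Ioc m Q, n c ≤ g * (m - 1) := by
        have h4 : ∑ c ∈ Finset.Ioc m Q, n c
            = ∑ c ∈ (Finset.Ioc m Q).filter (fun c => n c ≠ 0), n c := by
          rw [Finset.sum_filter_ne_zero]
        rw [h4, hg]
        refine Finset.sum_le_card_nsmul _ _ _ fun c hc => ?_
        rw [Finset.mem_filter, Finset.mem_Ioc] at hc
        have := hn hc.1.1.le
        omega
      obtain ⟨k, rfl⟩ : ∃ k, m = k + 1 := ⟨m - 1, by omega⟩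
      rw [Nat.add_sub_cancel] at h3
      have h5 : (k + 1 + 1) * n (k + 1) ≤ (k + 1 + 1) * k := Nat.mul_le_mul_left _ (by omega)
      have h6 : (k + 1) * (k + 1 + 1) ≤ (f + 1) * ((k + 1) * (k + 1 + 1)) :=
        Nat.le_mul_of_pos_left _ (Nat.succ_pos f)
      have h7 : (k + 1) * (k + 1 + 1) = (k + 1 + 1) * k + (k + 1 + 1) := by ring
      have h8 : (k + 1) * g = g * k + g := by ring
      omega
    have hrow : ∀ c ≤ m, nod 1 Q n c = (n c - c) + ∑ c' ∈ Finset.Ioc c m, min (n c' - c) 1
        + ∑ c' ∈ Finset.Ioc m Q, min (n c' - c) 1 := by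
      intro c hc
      rw [nod, if_pos (hc.trans hmQ), one_mul, add_assoc, Finset.sum_Ioc_consecutive _ hc hmQ]
    have hfirst : ∀ c ≤ m, ∑ c' ∈ Finset.Ioc c m, min (n c' - c) 1 = m - c := by
      intro c hc
      have h4 : ∑ c' ∈ Finset.Ioc c m, min (n c' - c) 1 = ∑ _c' ∈ Finset.Ioc c m, 1 := by
        refine Finset.sum_congr rfl fun c' hc' => ?_
        rw [Finset.mem_Ioc] at hc'
        have := hn hc'.2
        omega
      rw [h4]
      simp
    have hlast : ∀ c ≤ m, g1 ≤ ∑ c' ∈ Finset.Ioc m Q, min (n c' - c) 1 := by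
      intro c hc
      rw [hg1, Finset.card_filter]
      refine Finset.sum_le_sum fun c' _ => ?_
      split_ifs with h8 <;> omega
    have hm' : nod 1 Q n m = (n m - m) + g1 := by
      rw [hrow m le_rfl, hfirst m le_rfl, Nat.sub_self, add_zero]
      congr 1
      rw [hg1, Finset.card_filter]
      refine Finset.sum_congr rfl fun c' _ => ?_
      split_ifs with h8 <;> omega
    rw [uni_succ]
    have key := ih (σ + 2) (nod 1 Q n) (nod_antitone hn) ?_ ?_
    · intro c hc
      have := key c hc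
      rwa [show σ + 2 * (f + 1) = σ + 2 + 2 * f by ring]
    · intro c hc
      have h3 := h1 c hc
      have h4 := hlast c hc
      have h5 := hfirst c hc
      have h6 := hn hc
      rw [hm', hrow c hc, h5]
      have h7 : (σ + 2) * (m - c) = σ * (m - c) + 2 * (m - c) := by ring
      omega
    · have e1 : ∑ c ∈ Finset.Ioc m Q, nod 1 Q n c = ∑ c ∈ Finset.Ioc m Q, (n c - (m + 1)) :=
        UnitEAux.tail_sum m Q n
      have e2 : ((Finset.Ioc m Q).filter (fun c => nod 1 Q n c ≠ 0)).card ≤ g1 := by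
        refine Finset.card_le_card fun c hc => ?_
        rw [Finset.mem_filter, Finset.mem_Ioc] at hc ⊢
        refine ⟨hc.1, ?_⟩
        by_contra hcon
        exact hc.2 (unit_nod_zero hn (by omega))
      have e3 : ∑ c ∈ Finset.Ioc m Q, n c + m * g1
          ≤ ∑ c ∈ Finset.Ioc m Q, (n c - (m + 1)) + (m + 1) * g1 + m * g := by
        rw [hg, hg1, Finset.card_filter, Finset.card_filter, Finset.mul_sum, Finset.mul_sum,
          Finset.mul_sum, ← Finset.sum_add_distrib, ← Finset.sum_add_distrib,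
          ← Finset.sum_add_distrib]
        refine Finset.sum_le_sum fun c _ => ?_
        split_ifs <;> simp only [mul_one, mul_zero] <;> omega
      rw [e1, hm']
      have e4 : m * ((Finset.Ioc m Q).filter (fun c => nod 1 Q n c ≠ 0)).card ≤ m * g1 :=
        Nat.mul_le_mul_left _ e2
      obtain ⟨u, hu⟩ : ∃ u, n m = m + u := ⟨n m - m, by omega⟩
      rw [hu] at h2 ⊢
      rw [Nat.add_sub_cancel_left]
      nlinarith

end Pool.Agent.Helper6.SQ
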